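import Mathlib

section

/-! Structures: a set `S` of points of degree two attached to a set `T`. -/

namespace Pool.Agent.MP_5f0aae_co

open Finset Equiv Function Sum

section Basic

variable {T S S' S'' J : Type} [DecidableEq T] [DecidableEq S] [DecidableEq S'] [DecidableEq S'']
  [DecidableEq J]

structure Pre (nb : S → Finset (T ⊕ S)) : Prop where
  card : ∀ v, (nb v).card = 2
  symm : ∀ u v, inr u ∈ nb v → inr v ∈ nb u
  irrefl : ∀ v, inr v ∉ nb v

def Hom (φ : T → T) (e : S → S') (nb : S → Finset (T ⊕ S)) (nb' : S' → Finset (T ⊕ S')) : Prop :=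
  ∀ v, nb' (e v) = (nb v).image (Sum.map φ e)

omit [DecidableEq S] in
theorem Hom.comp {φ ψ : T → T} {e : S → S'} {e' : S' → S''} {nb nb' nb''}
    (h' : Hom ψ e' nb' nb'') (h : Hom φ e nb nb') : Hom (ψ ∘ φ) (e' ∘ e) nb nb'' := by
  intro v
  rw [Function.comp_apply, h', h, image_image, Sum.map_comp_map]

theorem Hom.refl (nb : S → Finset (T ⊕ S)) : Hom id id nb nb := by
  intro v
  simp

theorem Hom.pow {τ : Perm T} {ρ : Perm S} {nb : S → Finset (T ⊕ S)} (h : Hom τ ρ nb nb) (n : ℕ) :
    Hom (τ ^ n) (ρ ^ n) nb nb := by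
  induction n with
  | zero => simpa using Hom.refl nb
  | succ n ih =>
    have := h.comp ih
    simpa [pow_succ'] using this

omit [DecidableEq S] in
theorem Hom.of_comp {φ : T → T} {e : S → S'} {e' : S' → S''} {nb nb' nb''}
    (he' : Injective e') (h' : Hom id e' nb' nb'') (h : Hom φ (e' ∘ e) nb nb'') :
    Hom φ e nb nb' := by
  intro v
  have h1 := h v
  rw [Function.comp_apply, h'] at h1
  apply image_injective (f := Sum.map id e') (Sum.map_injective.2 ⟨injective_id, he'⟩)
  rw [h1, image_image, Sum.map_comp_map]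
  rfl

omit [DecidableEq S] in
theorem Hom.inr_mem {φ : T → T} {e : S → S'} {nb nb'} (h : Hom φ e nb nb') {u v : S}
    (huv : inr u ∈ nb v) : inr (e u) ∈ nb' (e v) := by
  rw [h]
  exact mem_image.2 ⟨_, huv, rfl⟩

omit [DecidableEq S] in
theorem Hom.inl_mem {φ : T → T} {e : S → S'} {nb nb'} (h : Hom φ e nb nb') {a : T} {v : S}
    (huv : inl a ∈ nb v) : inl (φ a) ∈ nb' (e v) := by
  rw [h]
  exact mem_image.2 ⟨_, huv, rfl⟩

omit [DecidableEq S] in
theorem Hom.exists_of_inr_mem {φ : T → T} {e : S → S'} {nb nb'} (h : Hom φ e nb nb') {w : S'}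
    {v : S} (hw : inr w ∈ nb' (e v)) : ∃ u, inr u ∈ nb v ∧ e u = w := by
  rw [h] at hw
  obtain ⟨z, hz, hzw⟩ := mem_image.1 hw
  cases z with
  | inl a => simp at hzw
  | inr u => exact ⟨u, hz, by simpa using hzw⟩

omit [DecidableEq S] in
theorem Pre.of_hom {φ : T → T} {e : S → S'} {nb nb'} (hφ : Injective φ) (he : Injective e)
    (h : Hom φ e nb nb') (hp : Pre nb') : Pre nb where
  card v := by
    rw [← hp.card (e v), h, card_image_of_injective _ (Sum.map_injective.2 ⟨hφ, he⟩)]
  symm u v huv := by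
    obtain ⟨w, hw, hwv⟩ := h.exists_of_inr_mem (hp.symm _ _ (h.inr_mem huv))
    rwa [he hwv] at hw
  irrefl v hv := hp.irrefl _ (h.inr_mem hv)

/-- The number of lines from `v` to `T`. -/
def tdv (s : Finset (T ⊕ S)) : ℕ := (s.filter fun z => z.isLeft).card

omit [DecidableEq S] in
theorem tdv_image {φ : T → T} {e : S → S'} (hφ : Injective φ) (he : Injective e)
    (s : Finset (T ⊕ S)) : tdv (s.image (Sum.map φ e)) = tdv s := by
  unfold tdv
  rw [filter_image, card_image_of_injective _ (Sum.map_injective.2 ⟨hφ, he⟩)]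
  simp

end Basic

section Weights

variable {T S S' B C : Type} [DecidableEq T] [DecidableEq S] [DecidableEq S'] [DecidableEq B]
  [DecidableEq C] [Fintype T] [Fintype S] [Fintype S'] [Fintype B] [Fintype C]
  {K : Type*} [Field K]

def td (nb : S → Finset (T ⊕ S)) : ℕ := ∑ v, tdv (nb v)

open Classical in
noncomputable def St (τ : Perm T) (S : Type) [DecidableEq S] [Fintype S] :
    Finset (Perm S × (S → Finset (T ⊕ S))) :=
  univ.filter fun p => Pre p.2 ∧ Hom τ p.1 p.2 p.2

theorem mem_St {τ : Perm T} {p : Perm S × (S → Finset (T ⊕ S))} :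
    p ∈ St τ S ↔ Pre p.2 ∧ Hom τ p.1 p.2 p.2 := by
  simp [St]

def wt (x : K) (p : Perm S × (S → Finset (T ⊕ S))) : K :=
  ((Perm.sign p.1 : ℤ) : K) * x ^ (td p.2 / 2)

noncomputable def W (x : K) (τ : Perm T) (S : Type) [DecidableEq S] [Fintype S] : K :=
  ∑ p ∈ St τ S, wt x p

/-- Transport along a bijection. -/
def tr (ε : S ≃ S') (p : Perm S × (S → Finset (T ⊕ S))) : Perm S' × (S' → Finset (T ⊕ S')) :=
  (ε.permCongr p.1, fun v => (p.2 (ε.symm v)).image (Sum.map id ε))

omit [Fintype T] [Fintype S] [Fintype S'] [DecidableEq S] in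
theorem hom_tr (ε : S ≃ S') (p : Perm S × (S → Finset (T ⊕ S))) :
    Hom id ε p.2 (tr ε p).2 := by
  intro v
  simp [tr]

omit [Fintype T] [Fintype S] [Fintype S'] in
theorem tr_symm_tr (ε : S ≃ S') (p : Perm S × (S → Finset (T ⊕ S))) :
    tr ε.symm (tr ε p) = p := by
  refine Prod.ext ?_ ?_
  · ext v
    simp [tr]
  · funext v
    simp [tr, image_image]

omit [Fintype T] [Fintype S] [Fintype S'] in
theorem hom_tr_symm (ε : S ≃ S') (p : Perm S × (S → Finset (T ⊕ S))) :
    Hom id ε.symm (tr ε p).2 p.2 := by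
  have := hom_tr ε.symm (tr ε p)
  rwa [tr_symm_tr] at this

theorem tr_mem_St {τ : Perm T} (ε : S ≃ S') {p : Perm S × (S → Finset (T ⊕ S))}
    (hp : p ∈ St τ S) : tr ε p ∈ St τ S' := by
  rw [mem_St] at hp ⊢
  refine ⟨Pre.of_hom injective_id ε.symm.injective (hom_tr_symm ε p) hp.1, ?_⟩
  exact (hom_tr ε p).comp (hp.2.comp (hom_tr_symm ε p))

omit [Fintype T] in
theorem wt_tr (x : K) (ε : S ≃ S') (p : Perm S × (S → Finset (T ⊕ S))) :
    wt x (tr ε p) = wt x p := by
  have : td (tr ε p).2 = td p.2 := by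
    unfold td
    rw [← ε.sum_comp]
    refine sum_congr rfl fun v _ => ?_
    rw [hom_tr ε p v, tdv_image injective_id ε.injective]
  unfold wt
  rw [this]
  simp [tr]

theorem sum_St_tr {τ : Perm T} (ε : S ≃ S') (F : Perm S' × (S' → Finset (T ⊕ S')) → K) :
    ∑ p ∈ St τ S', F p = ∑ p ∈ St τ S, F (tr ε p) := by
  symm
  refine sum_nbij' (tr ε) (tr ε.symm) (fun p hp => tr_mem_St ε hp)
    (fun p hp => tr_mem_St ε.symm hp) (fun p _ => tr_symm_tr ε p) (fun p _ => ?_) fun _ _ => rfl
  exact tr_symm_tr ε.symm p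

theorem W_congr (x : K) (τ : Perm T) (ε : S ≃ S') : W x τ S = W x τ S' := by
  unfold W
  rw [sum_St_tr ε]
  simp only [wt_tr]

noncomputable def Wn (x : K) (τ : Perm T) (s : ℕ) : K := W x τ (Fin s)

theorem W_eq_Wn (x : K) (τ : Perm T) : W x τ S = Wn x τ (Fintype.card S) :=
  W_congr x τ (Fintype.equivFin S)

/-- `p` restricts to `q` along `e`. -/
def Ext (e : B → S) (q : Perm B × (B → Finset (T ⊕ B))) (p : Perm S × (S → Finset (T ⊕ S))) :
    Prop :=
  (∀ b, p.1 (e b) = e (q.1 b)) ∧ Hom id e q.2 p.2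

def join (q : Perm B × (B → Finset (T ⊕ B))) (r : Perm C × (C → Finset (T ⊕ C))) :
    Perm (B ⊕ C) × (B ⊕ C → Finset (T ⊕ (B ⊕ C))) :=
  (Perm.sumCongr q.1 r.1, Sum.elim (fun b => (q.2 b).image (Sum.map id inl))
    (fun c => (r.2 c).image (Sum.map id inr)))

omit [Fintype T] [Fintype B] [Fintype C] in
theorem hom_join_left (q : Perm B × (B → Finset (T ⊕ B))) (r : Perm C × (C → Finset (T ⊕ C))) :
    Hom id inl q.2 (join q r).2 := fun _ => rfl

omit [Fintype T] [Fintype B] [Fintype C] in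
theorem hom_join_right (q : Perm B × (B → Finset (T ⊕ B))) (r : Perm C × (C → Finset (T ⊕ C))) :
    Hom id inr r.2 (join q r).2 := fun _ => rfl

theorem join_mem_St {τ : Perm T} {q : Perm B × (B → Finset (T ⊕ B))}
    {r : Perm C × (C → Finset (T ⊕ C))} (hq : q ∈ St τ B) (hr : r ∈ St τ C) :
    join q r ∈ St τ (B ⊕ C) := by
  rw [mem_St] at hq hr ⊢
  refine ⟨⟨?_, ?_, ?_⟩, ?_⟩
  · rintro (b | c)
    · rw [hom_join_left q r b,
        card_image_of_injective _ (Sum.map_injective.2 ⟨injective_id, inl_injective⟩), hq.1.card]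
    · rw [hom_join_right q r c,
        card_image_of_injective _ (Sum.map_injective.2 ⟨injective_id, inr_injective⟩), hr.1.card]
  · rintro u (b | c) h
    · obtain ⟨w, hw, rfl⟩ := (hom_join_left q r).exists_of_inr_mem h
      exact (hom_join_left q r).inr_mem (hq.1.symm _ _ hw)
    · obtain ⟨w, hw, rfl⟩ := (hom_join_right q r).exists_of_inr_mem h
      exact (hom_join_right q r).inr_mem (hr.1.symm _ _ hw)
  · rintro (b | c) h
    · obtain ⟨w, hw, hwb⟩ := (hom_join_left q r).exists_of_inr_mem h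
      rw [inl_injective hwb] at hw
      exact hq.1.irrefl _ hw
    · obtain ⟨w, hw, hwb⟩ := (hom_join_right q r).exists_of_inr_mem h
      rw [inr_injective hwb] at hw
      exact hr.1.irrefl _ hw
  · rintro (b | c)
    · have h1 := ((hom_join_left q r).comp hq.2) b
      rw [hom_join_left q r b, image_image, Sum.map_comp_map]
      exact h1
    · have h1 := ((hom_join_right q r).comp hr.2) c
      rw [hom_join_right q r c, image_image, Sum.map_comp_map]
      exact h1

omit [Fintype T] in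
theorem wt_join (x : K) {q : Perm B × (B → Finset (T ⊕ B))}
    (r : Perm C × (C → Finset (T ⊕ C))) (hq : Even (td q.2)) :
    wt x (join q r) = wt x q * wt x r := by
  have : td (join q r).2 = td q.2 + td r.2 := by
    unfold td
    rw [Fintype.sum_sum_type]
    congr 1
    · exact sum_congr rfl fun b _ => by
        rw [hom_join_left q r b, tdv_image injective_id inl_injective]
    · exact sum_congr rfl fun c _ => by
        rw [hom_join_right q r c, tdv_image injective_id inr_injective]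
  unfold wt
  obtain ⟨k, hk⟩ := hq
  rw [this, show (td q.2 + td r.2) / 2 = td q.2 / 2 + td r.2 / 2 by omega, pow_add]
  simp only [join, Perm.sign_sumCongr, Units.val_mul, Int.cast_mul]
  ring

open Classical in
theorem sum_ext_inl (x : K) {τ : Perm T} {q : Perm B × (B → Finset (T ⊕ B))} (hq : q ∈ St τ B)
    (hev : Even (td q.2)) :
    ∑ p ∈ St τ (B ⊕ C), (if Ext inl q p then wt x p else 0) = wt x q * W x τ C := by
  rw [← sum_filter, W, mul_sum]
  symm
  refine sum_bij (fun r _ => join q r) (fun r hr => ?_) (fun r _ r' _ h => ?_) (fun p hp => ?_)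
    fun r _ => (wt_join x r hev).symm
  · exact mem_filter.2 ⟨join_mem_St hq hr, fun b => rfl, hom_join_left q r⟩
  · refine Prod.ext ?_ ?_
    · ext c
      have := congrArg (fun p : Perm (B ⊕ C) × (B ⊕ C → Finset (T ⊕ (B ⊕ C))) => p.1 (inr c)) h
      simpa [join] using this
    · funext c
      have := congrArg (fun p : Perm (B ⊕ C) × (B ⊕ C → Finset (T ⊕ (B ⊕ C))) => p.2 (inr c)) h
      exact image_injective (Sum.map_injective.2 ⟨injective_id, inr_injective⟩) this
  · obtain ⟨hp, hρ, hnb⟩ := mem_filter.1 hp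
    rw [mem_St] at hp
    obtain ⟨⟨ρ₁, ρ₂⟩, hρ'⟩ := Perm.mem_sumCongrHom_range_of_perm_mapsTo_inl (σ := p.1) (by
      rintro _ ⟨b, rfl⟩
      exact ⟨_, (hρ b).symm⟩)
    have hρ₁ : ρ₁ = q.1 := by
      ext b
      have := hρ b
      rw [← hρ'] at this
      simpa using this
    let nb' : C → Finset (T ⊕ C) := fun c => univ.filter fun z => Sum.map id inr z ∈ p.2 (inr c)
    have hnb' : Hom id inr nb' p.2 := by
      intro c
      ext z
      simp only [nb', mem_image, mem_filter, mem_univ, true_and]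
      refine ⟨fun hz => ?_, ?_⟩
      · rcases z with a | b | c'
        · exact ⟨inl a, hz, rfl⟩
        · obtain ⟨w, -, hw⟩ := hnb.exists_of_inr_mem (hp.1.symm _ _ hz)
          simp at hw
        · exact ⟨inr c', hz, rfl⟩
      · rintro ⟨w, hw, rfl⟩
        exact hw
    refine ⟨(ρ₂, nb'), mem_St.2 ⟨Pre.of_hom injective_id inr_injective hnb' hp.1, ?_⟩, ?_⟩
    · refine Hom.of_comp inr_injective hnb' ?_
      have h1 := hp.2.comp hnb'
      have h2 : (inr ∘ ρ₂ : C → B ⊕ C) = p.1 ∘ inr := by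
        funext c
        rw [← hρ']
        simp
      simpa [h2] using h1
    · refine Prod.ext ?_ ?_
      · rw [← hρ', hρ₁]
        rfl
      · funext v
        rcases v with b | c
        · exact (hnb b).symm
        · exact (hnb' c).symm

open Classical in
theorem sum_ext (x : K) {τ : Perm T} {q : Perm B × (B → Finset (T ⊕ B))} (hq : q ∈ St τ B)
    (hev : Even (td q.2)) {e : B → S} (he : Injective e) :
    ∑ p ∈ St τ S, (if Ext e q p then wt x p else 0) =
      wt x q * Wn x τ (Fintype.card S - Fintype.card B) := by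
  let C := {v : S // v ∉ Set.range e}
  let ε : B ⊕ C ≃ S :=
    (Equiv.sumCongr (Equiv.ofInjective e he) (Equiv.refl C)).trans
      (Equiv.sumCompl fun v => v ∈ Set.range e)
  have hε : ∀ b, ε (inl b) = e b := fun b => rfl
  have hC : Fintype.card C = Fintype.card S - Fintype.card B := by
    have := Fintype.card_congr ε
    rw [Fintype.card_sum] at this
    omega
  rw [sum_St_tr ε, ← hC, ← W_eq_Wn, ← sum_ext_inl x hq hev]
  refine sum_congr rfl fun p _ => ?_
  rw [wt_tr]
  refine if_congr ⟨fun h => ⟨fun b => ?_, ?_⟩, fun h => ⟨fun b => ?_, ?_⟩⟩ rfl rfl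
  · apply ε.injective
    have := h.1 b
    rw [← hε, ← hε] at this
    simpa [tr] using this
  · exact Hom.of_comp ε.injective (hom_tr ε p) h.2
  · rw [← hε, ← hε, ← h.1 b]
    simp [tr]
  · exact (hom_tr ε p).comp h.2

end Weights

end Pool.Agent.MP_5f0aae_co

end

section

/-! Blocks: the orbit of an embedded connected model. -/

namespace Pool.Agent.MP_5f0aae_co

open Finset Equiv Function Sum

variable {T S J : Type} [DecidableEq T] [DecidableEq S] [DecidableEq J]
  [Fintype T] [Fintype S] [Fintype J] {K : Type*} [Field K]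

def Conn (nb : J → Finset (T ⊕ J)) : Prop :=
  ∀ P : J → Prop, (∀ i i', P i → inr i' ∈ nb i → P i') → ∀ i i', P i → P i'

open Classical in
noncomputable def embs (nbJ : J → Finset (T ⊕ J)) (nb : S → Finset (T ⊕ S)) : Finset (J → S) :=
  univ.filter fun e => Injective e ∧ Hom id e nbJ nb

omit [Fintype T] in
theorem mem_embs {nbJ : J → Finset (T ⊕ J)} {nb : S → Finset (T ⊕ S)} {e : J → S} :
    e ∈ embs nbJ nb ↔ Injective e ∧ Hom id e nbJ nb := by
  simp [embs]

open Classical in
noncomputable def auts (φ : Perm T) (nbJ : J → Finset (T ⊕ J)) : Finset (Perm J) :=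
  univ.filter fun δ => Hom φ δ nbJ nbJ

omit [Fintype T] in
theorem mem_auts {φ : Perm T} {nbJ : J → Finset (T ⊕ J)} {δ : Perm J} :
    δ ∈ auts φ nbJ ↔ Hom φ δ nbJ nbJ := by
  simp [auts]

def blockPerm (n : ℕ) (δ : Perm J) : Perm (Fin (n + 1) × J) :=
  (Equiv.prodCongrLeft fun _ : J => finRotate (n + 1)) * Perm.prodExtendRight (Fin.last n) δ

def blockNb (τ : Perm T) (nbJ : J → Finset (T ⊕ J)) (n : ℕ) (b : Fin (n + 1) × J) :
    Finset (T ⊕ (Fin (n + 1) × J)) :=
  (nbJ b.2).image (Sum.map (τ ^ (b.1 : ℕ) : Perm T) fun i => (b.1, i))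

def block (τ : Perm T) (nbJ : J → Finset (T ⊕ J)) (n : ℕ) (δ : Perm J) :
    Perm (Fin (n + 1) × J) × (Fin (n + 1) × J → Finset (T ⊕ (Fin (n + 1) × J))) :=
  (blockPerm n δ, blockNb τ nbJ n)

omit [DecidableEq J] [Fintype J] in
theorem blockPerm_last (n : ℕ) (δ : Perm J) (i : J) :
    blockPerm n δ (Fin.last n, i) = (0, δ i) := by
  simp [blockPerm, Equiv.prodCongrLeft]

omit [DecidableEq J] [Fintype J] in
theorem blockPerm_castSucc {n : ℕ} (δ : Perm J) (a : Fin n) (i : J) :
    blockPerm n δ (a.castSucc, i) = (a.succ, i) := by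
  have h : a.castSucc ≠ Fin.last n := (Fin.castSucc_lt_last a).ne
  simp [blockPerm, Equiv.prodCongrLeft, Perm.prodExtendRight_apply_ne _ h]

theorem sign_blockPerm (n : ℕ) (δ : Perm J) :
    Perm.sign (blockPerm n δ) = (-1) ^ (n * Fintype.card J) * Perm.sign δ := by
  simp [blockPerm, Perm.sign_prodCongrLeft, sign_finRotate, pow_mul]

omit [Fintype T] [Fintype J] in
theorem hom_blockNb (τ : Perm T) (nbJ : J → Finset (T ⊕ J)) (n : ℕ) (a : Fin (n + 1)) :
    Hom (τ ^ (a : ℕ) : Perm T) (fun i => (a, i)) nbJ (blockNb τ nbJ n) := fun _ => rfl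

omit [Fintype T] in
theorem td_blockNb (τ : Perm T) (nbJ : J → Finset (T ⊕ J)) (n : ℕ) :
    td (blockNb τ nbJ n) = (n + 1) * td nbJ := by
  unfold td
  rw [Fintype.sum_prod_type]
  have : ∀ (a : Fin (n + 1)) (i : J), tdv (blockNb τ nbJ n (a, i)) = tdv (nbJ i) := fun a i => by
    rw [hom_blockNb τ nbJ n a i, tdv_image (Equiv.injective _) (Prod.mk_right_injective a)]
  simp [this]

theorem block_mem_St {τ : Perm T} {nbJ : J → Finset (T ⊕ J)} (hJ : Pre nbJ) {n : ℕ} {δ : Perm J}
    (hδ : δ ∈ auts (τ ^ (n + 1)) nbJ) : block τ nbJ n δ ∈ St τ (Fin (n + 1) × J) := by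
  rw [mem_auts] at hδ
  refine mem_St.2 ⟨⟨?_, ?_, ?_⟩, ?_⟩
  · rintro ⟨a, i⟩
    change (blockNb τ nbJ n (a, i)).card = 2
    rw [hom_blockNb τ nbJ n a i, card_image_of_injective _
      (Sum.map_injective.2 ⟨Equiv.injective _, Prod.mk_right_injective a⟩), hJ.card]
  · rintro u ⟨a, i⟩ h
    obtain ⟨w, hw, rfl⟩ := (hom_blockNb τ nbJ n a).exists_of_inr_mem h
    exact (hom_blockNb τ nbJ n a).inr_mem (hJ.symm _ _ hw)
  · rintro ⟨a, i⟩ h
    obtain ⟨w, hw, hwi⟩ := (hom_blockNb τ nbJ n a).exists_of_inr_mem h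
    rw [(Prod.mk.inj hwi).2] at hw
    exact hJ.irrefl _ hw
  · rintro ⟨a, i⟩
    change blockNb τ nbJ n (blockPerm n δ (a, i)) =
      (blockNb τ nbJ n (a, i)).image (Sum.map τ (blockPerm n δ))
    rw [hom_blockNb τ nbJ n a i, image_image, Sum.map_comp_map]
    induction a using Fin.lastCases with
    | last =>
      rw [blockPerm_last, hom_blockNb τ nbJ n 0, hδ i, image_image, Sum.map_comp_map]
      congr 2
      · funext t
        simp [pow_succ']
      · funext i'
        simp [blockPerm_last]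
    | cast a =>
      rw [blockPerm_castSucc, hom_blockNb τ nbJ n a.succ]
      congr 2
      · funext t
        simp [pow_succ']
      · funext i'
        simp [blockPerm_castSucc]

omit [Fintype T] in
theorem wt_block (x : K) (τ : Perm T) {nbJ : J → Finset (T ⊕ J)} {d : ℕ} (hd : td nbJ = 2 * d)
    (n : ℕ) (δ : Perm J) : wt x (block τ nbJ n δ) =
      (-1) ^ (n * Fintype.card J) * ((Perm.sign δ : ℤ) : K) * x ^ ((n + 1) * d) := by
  unfold wt
  have : td (block τ nbJ n δ).2 / 2 = (n + 1) * d := by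
    change td (blockNb τ nbJ n) / 2 = _
    rw [td_blockNb, hd, mul_left_comm, Nat.mul_div_cancel_left _ two_pos]
  rw [this]
  change ((Perm.sign (blockPerm n δ) : ℤ) : K) * _ = _
  rw [sign_blockPerm]
  simp

open Classical in
noncomputable def blockEmbs (τ : Perm T) (nbJ : J → Finset (T ⊕ J)) (n : ℕ) (δ : Perm J)
    (p : Perm S × (S → Finset (T ⊕ S))) : Finset (Fin (n + 1) × J → S) :=
  univ.filter fun e => Injective e ∧ Ext e (block τ nbJ n δ) p

omit [Fintype T] in
theorem mem_blockEmbs {τ : Perm T} {nbJ : J → Finset (T ⊕ J)} {n : ℕ} {δ : Perm J}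
    {p : Perm S × (S → Finset (T ⊕ S))} {e : Fin (n + 1) × J → S} :
    e ∈ blockEmbs τ nbJ n δ p ↔ Injective e ∧ Ext e (block τ nbJ n δ) p := by
  simp [blockEmbs]

omit [Fintype T] [Fintype S] [Fintype J] in
theorem ext_block_apply {τ : Perm T} {nbJ : J → Finset (T ⊕ J)} {n : ℕ} {δ : Perm J}
    {p : Perm S × (S → Finset (T ⊕ S))} {e : Fin (n + 1) × J → S}
    (h : Ext e (block τ nbJ n δ) p) (a : Fin (n + 1)) (i : J) :
    e (a, i) = (p.1 ^ (a : ℕ)) (e (0, i)) := by
  induction a using Fin.induction with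
  | zero => simp
  | succ a ih =>
    have := h.1 (a.castSucc, i)
    change _ = e (blockPerm n δ _) at this
    rw [blockPerm_castSucc] at this
    rw [← this, ih]
    simp [pow_succ']

omit [Fintype T] [Fintype S] [Fintype J] in
theorem ext_block_last {τ : Perm T} {nbJ : J → Finset (T ⊕ J)} {n : ℕ} {δ : Perm J}
    {p : Perm S × (S → Finset (T ⊕ S))} {e : Fin (n + 1) × J → S}
    (h : Ext e (block τ nbJ n δ) p) (i : J) :
    (p.1 ^ (n + 1)) (e (0, i)) = e (0, δ i) := by
  have := h.1 (Fin.last n, i)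
  change _ = e (blockPerm n δ _) at this
  rw [blockPerm_last] at this
  rw [← this, ext_block_apply h (Fin.last n) i]
  simp [pow_succ']

omit [Fintype T] [Fintype S] [Fintype J] [DecidableEq J] in
theorem pow_mem_range {τ : Perm T} {nbJ : J → Finset (T ⊕ J)} (hc : Conn nbJ) {ρ : Perm S}
    {nb : S → Finset (T ⊕ S)} (hρ : Hom τ ρ nb nb) {e : J → S} (he : Hom id e nbJ nb) (c : ℕ)
    {i : J} (hi : (ρ ^ c) (e i) ∈ Set.range e) (i' : J) : (ρ ^ c) (e i') ∈ Set.range e := by
  refine hc (fun i => (ρ ^ c) (e i) ∈ Set.range e) (fun i i' hi hii' => ?_) i i' hi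
  obtain ⟨k, hk⟩ := hi
  have h1 := ((hρ.pow c).comp he).inr_mem hii'
  simp only [Function.comp_apply] at h1
  rw [← hk] at h1
  obtain ⟨u, -, hu⟩ := he.exists_of_inr_mem h1
  exact ⟨u, hu⟩

theorem card_embs_eq [Nonempty J] {τ : Perm T} {nbJ : J → Finset (T ⊕ J)} (hc : Conn nbJ)
    {p : Perm S × (S → Finset (T ⊕ S))} (hp : p ∈ St τ S) :
    (embs nbJ p.2).card = ∑ n ∈ range (Fintype.card S), ∑ δ ∈ auts (τ ^ (n + 1)) nbJ,
      (blockEmbs τ nbJ n δ p).card := by
  classical
  obtain ⟨i₀⟩ := ‹Nonempty J›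
  rw [mem_St] at hp
  simp_rw [← card_sigma]
  symm
  refine card_bij (fun y _ => fun i => y.2.2 (0, i)) ?_ ?_ ?_
  · rintro ⟨n, δ, e⟩ hy
    simp only [mem_sigma, mem_blockEmbs] at hy
    obtain ⟨-, -, he, hext⟩ := hy
    refine mem_embs.2 ⟨he.comp (Prod.mk_right_injective 0), ?_⟩
    have := hext.2.comp (hom_blockNb τ nbJ n 0)
    simpa [Function.comp_def] using this
  · rintro ⟨n, δ, e⟩ hy ⟨n', δ', e'⟩ hy' h
    simp only [mem_sigma, mem_blockEmbs] at hy hy'
    obtain ⟨-, -, he, hext⟩ := hy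
    obtain ⟨-, -, he', hext'⟩ := hy'
    have h0 : ∀ i, e (0, i) = e' (0, i) := congrFun h
    have hn : n = n' := by
      by_contra hne
      rcases Nat.lt_or_gt_of_ne hne with hlt | hlt
      · have h1 := ext_block_last hext i₀
        have h2 := ext_block_apply hext' ⟨n + 1, by omega⟩ i₀
        rw [h0, h0] at h1
        have h3 := he' (h2.trans h1)
        simp [Fin.ext_iff] at h3
      · have h1 := ext_block_last hext' i₀
        have h2 := ext_block_apply hext ⟨n' + 1, by omega⟩ i₀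
        rw [← h0, ← h0] at h1
        have h3 := he (h2.trans h1)
        simp [Fin.ext_iff] at h3
    subst hn
    have hδ : δ = δ' := by
      ext i
      have h1 := ext_block_last hext i
      have h2 := ext_block_last hext' i
      rw [h0, h0] at h1
      exact (Prod.mk.inj (he' (h1.symm.trans h2))).2
    subst hδ
    have hee : e = e' := by
      funext ⟨a, i⟩
      rw [ext_block_apply hext, ext_block_apply hext', h0]
    rw [hee]
  · intro e₀ he₀
    obtain ⟨hinj, hhom⟩ := mem_embs.1 he₀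
    have hex : ∃ n, (p.1 ^ (n + 1)) (e₀ i₀) ∈ Set.range e₀ := by
      refine ⟨orderOf p.1 - 1, i₀, ?_⟩
      rw [Nat.sub_add_cancel (orderOf_pos p.1), pow_orderOf_eq_one]
      rfl
    set n := Nat.find hex with hn
    have hall : ∀ i, (p.1 ^ (n + 1)) (e₀ i) ∈ Set.range e₀ :=
      pow_mem_range hc hp.2 hhom _ (Nat.find_spec hex)
    choose d hd using hall
    have hdinj : Injective d := by
      intro i i' hii'
      apply hinj
      apply (p.1 ^ (n + 1)).injective
      rw [← hd, ← hd, hii']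
    let δ : Perm J := Equiv.ofBijective d (Finite.injective_iff_bijective.1 hdinj)
    let e : Fin (n + 1) × J → S := fun b => (p.1 ^ (b.1 : ℕ)) (e₀ b.2)
    have key : ∀ (a b : Fin (n + 1)) (i i' : J), a ≤ b → e (a, i) = e (b, i') →
        (a, i) = (b, i') := by
      intro a b i i' hab h
      obtain ⟨c, hc'⟩ := Nat.exists_eq_add_of_le (show (a : ℕ) ≤ b from hab)
      simp only [e, hc', pow_add, Perm.mul_apply] at h
      have h1 := (p.1 ^ (a : ℕ)).injective h
      rcases c with _ | c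
      · have : a = b := Fin.ext (by omega)
        have h2 : i = i' := hinj (by simpa using h1)
        rw [this, h2]
      · exfalso
        have h2 := pow_mem_range hc hp.2 hhom (c + 1) ⟨i, h1⟩ i₀
        have h3 := Nat.find_min' hex h2
        have := b.isLt
        omega
    have heinj : Injective e := by
      rintro ⟨a, i⟩ ⟨b, i'⟩ h
      rcases le_total a b with hab | hab
      · exact key a b i i' hab h
      · exact (key b a i' i hab h.symm).symm
    refine ⟨⟨n, δ, e⟩, ?_, ?_⟩
    · simp only [mem_sigma, mem_blockEmbs, mem_range, mem_auts]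
      refine ⟨?_, ?_, heinj, ?_, ?_⟩
      · have h1 := Fintype.card_le_of_injective _
          (heinj.comp (Prod.mk_left_injective i₀) : Injective fun a : Fin (n + 1) => e (a, i₀))
        simpa using h1
      · refine Hom.of_comp hinj hhom ?_
        have h1 := (hp.2.pow (n + 1)).comp hhom
        have h2 : e₀ ∘ δ = (p.1 ^ (n + 1) : Perm S) ∘ e₀ := funext hd
        simpa [h2] using h1
      · rintro ⟨a, i⟩
        change _ = e (blockPerm n δ _)
        induction a using Fin.lastCases with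
        | last =>
          rw [blockPerm_last]
          simp only [e, Fin.val_last, Fin.val_zero, pow_zero, Perm.one_apply]
          change _ = e₀ (d i)
          rw [hd]
          simp [pow_succ']
        | cast a =>
          rw [blockPerm_castSucc]
          simp [e, pow_succ']
      · rintro ⟨a, i⟩
        change p.2 (e (a, i)) = (blockNb τ nbJ n (a, i)).image _
        rw [hom_blockNb τ nbJ n a i, image_image, Sum.map_comp_map]
        exact ((hp.2.pow a).comp hhom) i
    · funext i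
      simp [e]

theorem sum_wt_embs [Nonempty J] (x : K) (τ : Perm T) {nbJ : J → Finset (T ⊕ J)} (hJ : Pre nbJ)
    (hc : Conn nbJ) {d : ℕ} (hd : td nbJ = 2 * d) :
    ∑ p ∈ St τ S, wt x p * ((embs nbJ p.2).card : K) =
      ∑ n ∈ range (Fintype.card S),
        ((Fintype.card S).descFactorial ((n + 1) * Fintype.card J) : K) *
          ((-1) ^ (n * Fintype.card J) *
            (∑ δ ∈ auts (τ ^ (n + 1)) nbJ, ((Perm.sign δ : ℤ) : K)) * x ^ ((n + 1) * d)) *
          Wn x τ (Fintype.card S - (n + 1) * Fintype.card J) := by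
  classical
  have h1 : ∀ p ∈ St τ S, wt x p * ((embs nbJ p.2).card : K) =
      ∑ n ∈ range (Fintype.card S), ∑ δ ∈ auts (τ ^ (n + 1)) nbJ,
        ∑ e ∈ univ.filter (fun e : Fin (n + 1) × J → S => Injective e),
          if Ext e (block τ nbJ n δ) p then wt x p else 0 := by
    intro p hp
    rw [card_embs_eq hc hp]
    push_cast
    rw [mul_sum]
    refine sum_congr rfl fun n _ => ?_
    rw [mul_sum]
    refine sum_congr rfl fun δ _ => ?_
    rw [← sum_filter, filter_filter, sum_const, nsmul_eq_mul, mul_comm]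
    rfl
  rw [sum_congr rfl h1, sum_comm]
  refine sum_congr rfl fun n _ => ?_
  rw [sum_comm, mul_sum, sum_mul, mul_sum, sum_mul]
  refine sum_congr rfl fun δ hδ => ?_
  rw [sum_comm]
  have h2 : ∀ e ∈ univ.filter (fun e : Fin (n + 1) × J → S => Injective e),
      ∑ p ∈ St τ S, (if Ext e (block τ nbJ n δ) p then wt x p else 0) =
        wt x (block τ nbJ n δ) * Wn x τ (Fintype.card S - (n + 1) * Fintype.card J) := by
    intro e he
    have hev : Even (td (block τ nbJ n δ).2) := by
      change Even (td (blockNb τ nbJ n))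
      rw [td_blockNb, hd]
      exact (even_two_mul d).mul_left _
    have := sum_ext x (block_mem_St hJ hδ) hev (mem_filter.1 he).2
    simpa using this
  rw [sum_congr rfl h2, sum_const, nsmul_eq_mul, wt_block x τ hd]
  have h3 : (univ.filter (fun e : Fin (n + 1) × J → S => Injective e)).card =
      (Fintype.card S).descFactorial ((n + 1) * Fintype.card J) := by
    rw [← Fintype.card_subtype, Fintype.card_congr (Equiv.subtypeInjectiveEquivEmbedding _ _),
      Fintype.card_embedding_eq]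
    simp
  rw [h3]
  ring

end Pool.Agent.MP_5f0aae_co

end

section

/-! Non-backtracking walks through points of degree two. -/

namespace Pool.Agent.MP_5f0aae_co

open Finset Equiv Function Sum

variable {T S : Type} [DecidableEq T] [DecidableEq S]

theorem pair_right_cancel {α : Type} [DecidableEq α] {a b c : α} (h : ({a, b} : Finset α) = {a, c})
    (hc : ({a, b} : Finset α).card = 2) : b = c := by
  have hab : a ≠ b := by
    rintro rfl
    simp at hc
  have : b ∈ ({a, c} : Finset α) := h ▸ by simp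
  simp only [mem_insert, mem_singleton] at this
  exact this.resolve_left hab.symm

/-- `q (k + 1)` lies in `S` and has the neighbours `q k`, `q (k + 2)`. -/
def Loc (nb : S → Finset (T ⊕ S)) (q : ℕ → T ⊕ S) (k : ℕ) : Prop :=
  ∃ w, q (k + 1) = inr w ∧ nb w = {q k, q (k + 2)}

variable {nb : S → Finset (T ⊕ S)}

theorem Loc.ne (hp : Pre nb) {q : ℕ → T ⊕ S} {k : ℕ} (h : Loc nb q k) : q k ≠ q (k + 2) := by
  obtain ⟨w, -, hw⟩ := h
  intro he
  have := hp.card w
  rw [hw, he] at this
  simp at this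

theorem Loc.ne_succ (hp : Pre nb) {q : ℕ → T ⊕ S} {k : ℕ} (h : Loc nb q k) :
    q k ≠ q (k + 1) := by
  obtain ⟨w, hw1, hw⟩ := h
  intro he
  apply hp.irrefl w
  rw [hw, he, hw1]
  simp

theorem Loc.shift {q : ℕ → T ⊕ S} {k a : ℕ} (h : Loc nb q (a + k)) :
    Loc nb (fun i => q (a + i)) k := h

theorem fwd (hp : Pre nb) {q r : ℕ → T ⊕ S} (h0 : q 0 = r 0) (h1 : q 1 = r 1) (c : ℕ)
    (hq : ∀ k < c, Loc nb q k) (hr : ∀ k < c, Loc nb r k) :
    q c = r c ∧ q (c + 1) = r (c + 1) := by
  induction c with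
  | zero => exact ⟨h0, h1⟩
  | succ c ih =>
    obtain ⟨ih0, ih1⟩ := ih (fun k hk => hq k (by omega)) (fun k hk => hr k (by omega))
    refine ⟨ih1, ?_⟩
    obtain ⟨w, hw1, hw⟩ := hq c (by omega)
    obtain ⟨w', hw1', hw'⟩ := hr c (by omega)
    have : w = w' := inr_injective (hw1.symm.trans (ih1.trans hw1'))
    subst this
    refine pair_right_cancel (a := q c) ?_ (hw ▸ hp.card w)
    rw [← hw, hw', ih0]

theorem bwd (hp : Pre nb) {q r : ℕ → T ⊕ S} (c : ℕ)
    (hq : ∀ k < c, Loc nb q k) (hr : ∀ k < c, Loc nb r k)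
    (h0 : q c = r c) (h1 : q (c + 1) = r (c + 1)) : q 0 = r 0 ∧ q 1 = r 1 := by
  induction c with
  | zero => exact ⟨h0, h1⟩
  | succ c ih =>
    refine ih (fun k hk => hq k (by omega)) (fun k hk => hr k (by omega)) ?_ h0
    obtain ⟨w, hw1, hw⟩ := hq c (by omega)
    obtain ⟨w', hw1', hw'⟩ := hr c (by omega)
    have : w = w' := inr_injective (hw1.symm.trans (h0.trans hw1'))
    subst this
    refine pair_right_cancel (a := q (c + 2)) ?_ (by rw [pair_comm, ← hw]; exact hp.card w)
    rw [pair_comm, ← hw, hw', h1, pair_comm]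

theorem walk_injOn (hp : Pre nb) {q : ℕ → T ⊕ S} {L : ℕ} (hq : ∀ k < L, Loc nb q k)
    (hper : ∀ P, 1 ≤ P → P < L → ¬ (q P = q 0 ∧ q (P + 1) = q 1)) :
    ∀ b ≤ L, ∀ a, 1 ≤ a → a < b → q a ≠ q b := by
  intro b
  induction b using Nat.strong_induction_on with
  | _ b ih =>
    intro hb a ha hab he
    obtain ⟨a, rfl⟩ : ∃ a', a = a' + 1 := ⟨a - 1, by omega⟩
    obtain ⟨b, rfl⟩ : ∃ b', b = b' + 1 := ⟨b - 1, by omega⟩
    obtain ⟨w, hw1, hw⟩ := hq a (by omega)
    obtain ⟨w', hw1', hw'⟩ := hq b (by omega)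
    have : w = w' := inr_injective (hw1.symm.trans (he.trans hw1'))
    subst this
    have hmem : q b ∈ ({q a, q (a + 2)} : Finset (T ⊕ S)) := by
      rw [← hw, hw']
      simp
    simp only [mem_insert, mem_singleton] at hmem
    rcases hmem with h | h
    · rcases Nat.eq_zero_or_pos a with rfl | ha0
      · exact hper b (by omega) (by omega) ⟨h, he.symm⟩
      · exact ih b (by omega) (by omega) a ha0 (by omega) h.symm
    · rcases lt_trichotomy (a + 2) b with h2 | h2 | h2
      · exact ih b (by omega) (by omega) (a + 2) (by omega) h2 h.symm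
      · subst h2
        exact (hq (a + 1) (by omega)).ne hp he
      · have h3 : b = a + 1 := by omega
        subst h3
        exact (hq (a + 1) (by omega)).ne_succ hp he

theorem exists_period [Finite T] [Finite S] (hp : Pre nb) {q : ℕ → T ⊕ S}
    (hq : ∀ k, Loc nb q k) : ∃ P, 1 ≤ P ∧ q P = q 0 ∧ q (P + 1) = q 1 := by
  have key : ∀ i j, i < j → (q i, q (i + 1)) = (q j, q (j + 1)) →
      ∃ P, 1 ≤ P ∧ q P = q 0 ∧ q (P + 1) = q 1 := by
    intro i j hij h
    obtain ⟨P, rfl⟩ := Nat.exists_eq_add_of_lt hij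
    have := bwd hp (q := fun k => q (P + 1 + k)) (r := q) i (fun k _ => (hq _).shift)
      (fun k _ => hq k) (by rw [(Prod.mk.inj h).1]; congr 1; omega)
      (by rw [(Prod.mk.inj h).2]; congr 1; omega)
    exact ⟨P + 1, by omega, this.1, this.2⟩
  obtain ⟨i, j, hij, h⟩ := Finite.exists_ne_map_eq_of_infinite fun k => (q k, q (k + 1))
  rcases Nat.lt_or_gt_of_ne hij with hlt | hlt
  · exact key i j hlt h
  · exact key j i hlt h.symm

open Classical in
noncomputable def nxt (nb : S → Finset (T ⊕ S)) (a : T ⊕ S) : T ⊕ S → T ⊕ S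
  | inl _ => a
  | inr v => if h : ∃ c, nb v = {a, c} then h.choose else a

theorem exists_other (hp : Pre nb) {a : T ⊕ S} {v : S} (h : a ∈ nb v) : ∃ c, nb v = {a, c} := by
  obtain ⟨y, z, -, hyz⟩ := card_eq_two.1 (hp.card v)
  rw [hyz] at h ⊢
  simp only [mem_insert, mem_singleton] at h
  rcases h with rfl | rfl
  · exact ⟨z, rfl⟩
  · exact ⟨y, pair_comm _ _⟩

theorem nxt_spec (hp : Pre nb) {a : T ⊕ S} {v : S} (h : a ∈ nb v) :
    nb v = {a, nxt nb a (inr v)} := by
  have hex := exists_other hp h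
  simp only [nxt, dif_pos hex]
  exact hex.choose_spec

noncomputable def walk (nb : S → Finset (T ⊕ S)) (a b : T ⊕ S) : ℕ → T ⊕ S
  | 0 => a
  | 1 => b
  | k + 2 => nxt nb (walk nb a b k) (walk nb a b (k + 1))

theorem walk_loc (hp : Pre nb) {a : T ⊕ S} {v : S} (h : a ∈ nb v) (k : ℕ)
    (hk : ∀ i ≤ k, (walk nb a (inr v) (i + 1)).isRight) : Loc nb (walk nb a (inr v)) k := by
  induction k with
  | zero => exact ⟨v, rfl, nxt_spec hp h⟩
  | succ k ih =>
    obtain ⟨w, hw1, hw⟩ := ih fun i hi => hk i (by omega)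
    obtain ⟨u, hu⟩ := Sum.isRight_iff.1 (hk (k + 1) le_rfl)
    refine ⟨u, hu, ?_⟩
    have h1 : inr u ∈ nb w := by
      rw [hw, hu]
      simp
    have h2 := nxt_spec hp (hp.symm _ _ h1)
    rw [h2, show walk nb a (inr v) (k + 1 + 2) =
      nxt nb (walk nb a (inr v) (k + 1)) (walk nb a (inr v) (k + 1 + 1)) from rfl, hu, hw1]

/-- Either a walk never meets `T`, or there is a first time. -/
theorem walk_cases (hp : Pre nb) {a : T ⊕ S} {v : S} (h : a ∈ nb v) :
    ∃ q : ℕ → T ⊕ S, q 0 = a ∧ q 1 = inr v ∧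
      ((∀ k, Loc nb q k) ∨ ∃ m β, (∀ k < m + 1, Loc nb q k) ∧ q (m + 2) = inl β) := by
  classical
  refine ⟨walk nb a (inr v), rfl, rfl, ?_⟩
  by_cases hall : ∃ m, ¬ (walk nb a (inr v) (m + 2)).isRight
  · right
    have h1 := Nat.find_spec hall
    rw [Sum.not_isRight] at h1
    obtain ⟨β, hβ⟩ := Sum.isLeft_iff.1 h1
    refine ⟨Nat.find hall, β, fun k hk => walk_loc hp h k fun i hi => ?_, hβ⟩
    rcases i with _ | i
    · rfl
    · simpa using Nat.find_min hall (show i < Nat.find hall by omega)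
  · left
    push Not at hall
    refine fun k => walk_loc hp h k fun i _ => ?_
    rcases i with _ | i
    · rfl
    · exact hall i

end Pool.Agent.MP_5f0aae_co

end

section

/-! The path and cycle models and their embeddings. -/

namespace Pool.Agent.MP_5f0aae_co

open Finset Equiv Function Sum

variable {T S : Type} [DecidableEq T] [DecidableEq S]

section Path

def pathSeq (m : ℕ) (α β : T) (k : ℕ) : T ⊕ Fin (m + 1) :=
  if k = 0 then inl α else if h : k - 1 < m + 1 then inr ⟨k - 1, h⟩ else inl β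

def pathNb (m : ℕ) (α β : T) (i : Fin (m + 1)) : Finset (T ⊕ Fin (m + 1)) :=
  {pathSeq m α β i, pathSeq m α β (i + 2)}

omit [DecidableEq T] in
@[simp] theorem pathSeq_zero (m : ℕ) (α β : T) : pathSeq m α β 0 = inl α := rfl

omit [DecidableEq T] in
theorem pathSeq_succ {m : ℕ} (α β : T) {k : ℕ} (hk : k < m + 1) :
    pathSeq m α β (k + 1) = inr ⟨k, hk⟩ := by
  simp [pathSeq, hk]

omit [DecidableEq T] in
@[simp] theorem pathSeq_last (m : ℕ) (α β : T) : pathSeq m α β (m + 2) = inl β := by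
  simp [pathSeq]

/-- The walk that belongs to a map from the path model. -/
def pathWalk {m : ℕ} (α β : T) (e : Fin (m + 1) → S) (k : ℕ) : T ⊕ S :=
  Sum.map id e (pathSeq m α β k)

omit [DecidableEq T] [DecidableEq S] in
@[simp] theorem pathWalk_zero {m : ℕ} (α β : T) (e : Fin (m + 1) → S) :
    pathWalk α β e 0 = inl α := rfl

omit [DecidableEq T] [DecidableEq S] in
theorem pathWalk_succ {m : ℕ} (α β : T) (e : Fin (m + 1) → S) {k : ℕ} (hk : k < m + 1) :
    pathWalk α β e (k + 1) = inr (e ⟨k, hk⟩) := by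
  simp [pathWalk, pathSeq_succ α β hk]

omit [DecidableEq T] [DecidableEq S] in
@[simp] theorem pathWalk_last {m : ℕ} (α β : T) (e : Fin (m + 1) → S) :
    pathWalk α β e (m + 2) = inl β := by
  simp [pathWalk]

theorem hom_path_iff {m : ℕ} {α β : T} {e : Fin (m + 1) → S} {nb : S → Finset (T ⊕ S)} :
    Hom id e (pathNb m α β) nb ↔ ∀ k < m + 1, Loc nb (pathWalk α β e) k := by
  constructor
  · intro h k hk
    refine ⟨e ⟨k, hk⟩, pathWalk_succ α β e hk, ?_⟩
    rw [h]
    simp [pathNb, pathWalk]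
  · intro h i
    obtain ⟨w, hw1, hw⟩ := h i i.isLt
    rw [pathWalk_succ α β e i.isLt] at hw1
    rw [inr_injective hw1, hw]
    simp [pathNb, pathWalk]

omit [DecidableEq T] in
theorem inr_eq_pathSeq {m : ℕ} {α β : T} {u : Fin (m + 1)} {k : ℕ} :
    inr u = pathSeq m α β k ↔ k = u + 1 := by
  have hu := u.isLt
  unfold pathSeq
  split_ifs with h1 h2
  · simp [h1]
  · simp only [inr.injEq, Fin.ext_iff]
    omega
  · simp only [false_iff]
    omega

theorem inr_mem_pathNb {m : ℕ} {α β : T} {u v : Fin (m + 1)} :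
    inr u ∈ pathNb m α β v ↔ (v : ℕ) = u + 1 ∨ (u : ℕ) = v + 1 := by
  simp only [pathNb, mem_insert, mem_singleton, inr_eq_pathSeq]
  omega

theorem pre_pathNb {m : ℕ} {α β : T} (h : m = 0 → α ≠ β) : Pre (pathNb m α β) where
  card i := by
    have hi := i.isLt
    refine card_pair ?_
    unfold pathSeq
    split_ifs <;> simp_all
  symm u v := by
    simp only [inr_mem_pathNb]
    omega
  irrefl v := by
    simp only [inr_mem_pathNb]
    omega

theorem conn_pathNb (m : ℕ) (α β : T) : Conn (pathNb m α β) := by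
  intro P hP i i' hi
  have up : ∀ k (hk : k + 1 < m + 1), P ⟨k, by omega⟩ → P ⟨k + 1, hk⟩ := fun k hk h =>
    hP _ _ h (by simp [pathNb, pathSeq_succ α β hk])
  have down : ∀ k (hk : k + 1 < m + 1), P ⟨k + 1, hk⟩ → P ⟨k, by omega⟩ := fun k hk h =>
    hP _ _ h (by simp [pathNb, pathSeq_succ α β (show k < m + 1 by omega)])
  have h0 : ∀ k (hk : k < m + 1), P ⟨k, hk⟩ ↔ P 0 := by
    intro k
    induction k with
    | zero => exact fun _ => Iff.rfl
    | succ k ih => exact fun hk => ⟨fun h => (ih _).1 (down k hk h), fun h => up k hk ((ih _).2 h)⟩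
  exact (h0 _ i'.isLt).2 ((h0 _ i.isLt).1 hi)

theorem td_pathNb {m : ℕ} {α β : T} (h : m = 0 → α ≠ β) : td (pathNb m α β) = 2 * 1 := by
  have key : ∀ i : Fin (m + 1), tdv (pathNb m α β i) =
      (if i = 0 then 1 else 0) + (if i = Fin.last m then 1 else 0) := by
    intro i
    have hi := i.isLt
    have hne : pathSeq m α β i ≠ pathSeq m α β (i + 2) := by
      have := (pre_pathNb h).card i
      intro he
      rw [pathNb, he] at this
      simp at this
    rw [tdv, card_filter, pathNb, sum_pair hne]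
    simp only [pathSeq, Fin.ext_iff]
    split_ifs <;> simp_all <;> omega
  simp [td, key, sum_add_distrib]

theorem hom_path_map (φ : T → T) (m : ℕ) (α β : T) :
    Hom φ id (pathNb m α β) (pathNb m (φ α) (φ β)) := by
  intro i
  have : ∀ k, Sum.map φ id (pathSeq m α β k) = pathSeq m (φ α) (φ β) k := by
    intro k
    unfold pathSeq
    split_ifs <;> rfl
  simp [pathNb, this]

theorem hom_path_rev (m : ℕ) (α β : T) :
    Hom id Fin.rev (pathNb m β α) (pathNb m α β) := by
  intro i
  have hi := i.isLt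
  have : ∀ k ≤ m + 2, Sum.map id Fin.rev (pathSeq m β α k) = pathSeq m α β (m + 2 - k) := by
    intro k hk
    unfold pathSeq
    split_ifs <;> simp_all [Fin.ext_iff] <;> omega
  simp only [pathNb, image_insert, image_singleton]
  rw [this _ (by omega), this _ (by omega), pair_comm]
  have h1 : m + 2 - (i + 2) = (Fin.rev i : ℕ) := by simp
  have h2 : m + 2 - i = (Fin.rev i : ℕ) + 2 := by
    simp only [Fin.val_rev]
    omega
  rw [h1, h2]

variable {nb : S → Finset (T ⊕ S)}

theorem path_det_length (hp : Pre nb) {m m' : ℕ} {α β β' : T} {e : Fin (m + 1) → S}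
    {e' : Fin (m' + 1) → S} (h : Hom id e (pathNb m α β) nb) (h' : Hom id e' (pathNb m' α β') nb)
    (h0 : e 0 = e' 0) : m' ≤ m := by
  by_contra hlt
  have := (fwd hp (q := pathWalk α β e) (r := pathWalk α β' e') rfl
    (by rw [pathWalk_succ α β e (Nat.succ_pos m), pathWalk_succ α β' e' (Nat.succ_pos m')]
        exact congrArg inr h0) (m + 1) (hom_path_iff.1 h)
    (fun k hk => hom_path_iff.1 h' k (by omega))).2
  rw [pathWalk_last, pathWalk_succ α β' e' (show m + 1 < m' + 1 by omega)] at this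
  simp at this

theorem path_det (hp : Pre nb) {m : ℕ} {α β β' : T} {e e' : Fin (m + 1) → S}
    (h : Hom id e (pathNb m α β) nb) (h' : Hom id e' (pathNb m α β') nb)
    (h0 : e 0 = e' 0) : β = β' ∧ e = e' := by
  have key := fun c (hc : c ≤ m + 1) => (fwd hp (q := pathWalk α β e) (r := pathWalk α β' e') rfl
    (by rw [pathWalk_succ α β e (Nat.succ_pos m), pathWalk_succ α β' e' (Nat.succ_pos m)]
        exact congrArg inr h0) c (fun k hk => hom_path_iff.1 h k (by omega))
    (fun k hk => hom_path_iff.1 h' k (by omega))).2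
  constructor
  · simpa using key (m + 1) le_rfl
  · funext i
    have := key i (by omega)
    rw [pathWalk_succ α β e i.isLt, pathWalk_succ α β' e' i.isLt] at this
    exact inr_injective this

theorem path_det_pos (hp : Pre nb) {m m' : ℕ} {α β α' β' : T} {e : Fin (m + 1) → S}
    {e' : Fin (m' + 1) → S} (h : Hom id e (pathNb m α β) nb) (h' : Hom id e' (pathNb m' α' β') nb)
    {i i' : ℕ} (hi : i < m + 1) (hi' : i' < m' + 1) (hle : i ≤ i')
    (h0 : pathWalk α β e i = pathWalk α' β' e' i')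
    (h1 : pathWalk α β e (i + 1) = pathWalk α' β' e' (i' + 1)) :
    i = i' ∧ α = α' ∧ e 0 = e' 0 := by
  obtain ⟨c, rfl⟩ := Nat.exists_eq_add_of_le' hle
  have := bwd hp (q := pathWalk α β e) (r := fun k => pathWalk α' β' e' (c + k)) i
    (fun k hk => hom_path_iff.1 h k (by omega))
    (fun k hk => (hom_path_iff.1 h' (c + k) (by omega)).shift) h0 h1
  rcases c with _ | c
  · simp only [Nat.zero_add, pathWalk_zero, inl.injEq] at this
    refine ⟨by omega, this.1, ?_⟩
    have h2 := this.2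
    rw [pathWalk_succ α β e (Nat.succ_pos m), pathWalk_succ α' β' e' (Nat.succ_pos m')] at h2
    exact inr_injective h2
  · have h2 := this.1
    simp only [Nat.add_zero] at h2
    rw [pathWalk_succ α' β' e' (show c < m' + 1 by omega)] at h2
    simp at h2

theorem exists_path_of_walk (hp : Pre nb) {q : ℕ → T ⊕ S} {α β : T} {m : ℕ} (h0 : q 0 = inl α)
    (hq : ∀ k < m + 1, Loc nb q k) (hl : q (m + 2) = inl β) :
    ∃ e : Fin (m + 1) → S, Injective e ∧ Hom id e (pathNb m α β) nb ∧ (m = 0 → α ≠ β) ∧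
      inr (e 0) = q 1 := by
  choose w hw1 hw using hq
  have hq : ∀ k < m + 1, Loc nb q k := fun k hk => ⟨w k hk, hw1 k hk, hw k hk⟩
  let e : Fin (m + 1) → S := fun i => w i i.isLt
  have hqe : ∀ k ≤ m + 2, pathWalk α β e k = q k := by
    intro k hk
    rcases k with _ | k
    · exact h0.symm
    · rcases Nat.lt_or_ge k (m + 1) with hk' | hk'
      · rw [pathWalk_succ α β e hk', hw1 k hk']
      · obtain rfl : k = m + 1 := by omega
        rw [pathWalk_last, hl]
  have hinj := walk_injOn hp hq (by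
    rintro P hP1 hP ⟨hP0, -⟩
    obtain ⟨P, rfl⟩ : ∃ P', P = P' + 1 := ⟨P - 1, by omega⟩
    rw [hw1 P (by omega), h0] at hP0
    simp at hP0)
  refine ⟨e, fun i i' hii' => ?_, hom_path_iff.2 fun k hk => ?_, ?_, (hw1 0 _).symm⟩
  · have h1 : q (i + 1) = q (i' + 1) := by
      rw [hw1 i i.isLt, hw1 i' i'.isLt]
      exact congrArg inr hii'
    have hi := i.isLt
    have hi' := i'.isLt
    rcases lt_trichotomy (i : ℕ) i' with h | h | h
    · exact absurd h1 (hinj _ (by omega) _ (by omega) (by omega))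
    · exact Fin.ext h
    · exact absurd h1.symm (hinj _ (by omega) _ (by omega) (by omega))
  · refine ⟨w k hk, by rw [hqe _ (by omega), hw1], ?_⟩
    rw [hqe _ (by omega), hqe _ (by omega), hw]
  · rintro rfl rfl
    exact (hq 0 (by omega)).ne hp (h0.trans hl.symm)

theorem exists_path_of_dart [Finite T] [Finite S] (hp : Pre nb) {α : T} {v : S}
    (h : inl α ∈ nb v) : ∃ (m : ℕ) (β : T) (e : Fin (m + 1) → S), Injective e ∧
      Hom id e (pathNb m α β) nb ∧ (m = 0 → α ≠ β) ∧ e 0 = v := by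
  obtain ⟨q, h0, h1, hq | ⟨m, β, hq, hl⟩⟩ := walk_cases hp h
  · obtain ⟨P, hP, hP0, -⟩ := exists_period hp hq
    obtain ⟨P, rfl⟩ : ∃ P', P = P' + 1 := ⟨P - 1, by omega⟩
    obtain ⟨w, hw, -⟩ := hq P
    rw [hw, h0] at hP0
    simp at hP0
  · obtain ⟨e, he1, he2, he3, he4⟩ := exists_path_of_walk hp h0 hq hl
    exact ⟨m, β, e, he1, he2, he3, inr_injective (he4.trans h1)⟩

end Path

section Cycle

def cycNb (T : Type) [DecidableEq T] (m : ℕ) (z : ZMod (m + 3)) : Finset (T ⊕ ZMod (m + 3)) :=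
  {inr (z - 1), inr (z + 1)}

theorem zmod_natCast_ne_zero (m : ℕ) {k : ℕ} (h0 : 0 < k) (h : k < m + 3) :
    (k : ZMod (m + 3)) ≠ 0 := by
  rw [Ne, ZMod.natCast_eq_zero_iff]
  exact Nat.not_dvd_of_pos_of_lt h0 h

theorem zmod_one_ne_zero (m : ℕ) : (1 : ZMod (m + 3)) ≠ 0 := by
  simpa using zmod_natCast_ne_zero m one_pos (by omega)

theorem zmod_two_ne_zero (m : ℕ) : (2 : ZMod (m + 3)) ≠ 0 := by
  simpa using zmod_natCast_ne_zero m two_pos (by omega)

theorem pre_cycNb (m : ℕ) : Pre (cycNb T m) where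
  card z := by
    refine card_pair fun h => zmod_two_ne_zero m ?_
    have := inr_injective h
    linear_combination -this
  symm u v := by
    simp only [cycNb, mem_insert, mem_singleton, inr.injEq]
    rintro (rfl | rfl) <;> simp
  irrefl v := by
    simp only [cycNb, mem_insert, mem_singleton, inr.injEq, not_or]
    exact ⟨fun h => zmod_one_ne_zero m (by linear_combination h),
      fun h => zmod_one_ne_zero m (by linear_combination -h)⟩

theorem conn_cycNb (m : ℕ) : Conn (cycNb T m) := by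
  intro P hP i i' hi
  have key : ∀ k : ℕ, P (i + k) := by
    intro k
    induction k with
    | zero => simpa using hi
    | succ k ih => exact hP _ _ ih (by simp [cycNb, add_assoc])
  simpa using key (i' - i).val

theorem td_cycNb (m : ℕ) : td (cycNb T m) = 2 * 0 := by
  simp [td, tdv, cycNb]

theorem hom_cyc_rot (φ : T → T) (m : ℕ) (c : ZMod (m + 3)) :
    Hom φ (fun z => c + z) (cycNb T m) (cycNb T m) := by
  intro z
  simp [cycNb, add_assoc, add_sub_assoc]

theorem hom_cyc_refl (φ : T → T) (m : ℕ) (c : ZMod (m + 3)) :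
    Hom φ (fun z => c - z) (cycNb T m) (cycNb T m) := by
  intro z
  simp only [cycNb, image_insert, image_singleton, Sum.map_inr]
  rw [pair_comm]
  congr 3 <;> ring

variable {nb : S → Finset (T ⊕ S)}

theorem loc_cyc {m : ℕ} {φ : T → T} {e : ZMod (m + 3) → S} (h : Hom φ e (cycNb T m) nb)
    (c : ZMod (m + 3)) (k : ℕ) : Loc nb (fun k : ℕ => inr (e (c + k))) k := by
  refine ⟨_, rfl, ?_⟩
  rw [h]
  simp only [cycNb, image_insert, image_singleton, Sum.map_inr]
  congr 4 <;> push_cast <;> ring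

theorem cyc_det_walk (hp : Pre nb) {m m' : ℕ} {φ φ' : T → T} {e : ZMod (m + 3) → S}
    {e' : ZMod (m' + 3) → S}
    (h : Hom φ e (cycNb T m) nb) (h' : Hom φ' e' (cycNb T m') nb) (h0 : e 0 = e' 0)
    (h1 : e 1 = e' 1) (k : ℕ) : e k = e' k := by
  have := (fwd hp (q := fun k : ℕ => inr (e (0 + k))) (r := fun k : ℕ => inr (e' (0 + k)))
    (by simpa using h0) (by simpa using h1) k (fun k _ => loc_cyc h 0 k)
    (fun k _ => loc_cyc h' 0 k)).1
  simpa using this

theorem cyc_det_length (hp : Pre nb) {m m' : ℕ} {e : ZMod (m + 3) → S} {e' : ZMod (m' + 3) → S}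
    (h : Hom id e (cycNb T m) nb) (h' : Hom id e' (cycNb T m') nb) (he' : Injective e')
    (h0 : e 0 = e' 0) (h1 : e 1 = e' 1) : m' ≤ m := by
  by_contra hlt
  have := cyc_det_walk hp h h' h0 h1 (m + 3)
  rw [ZMod.natCast_self, h0] at this
  exact zmod_natCast_ne_zero m' (by omega) (by omega) (he' this).symm

theorem cyc_det (hp : Pre nb) {m : ℕ} {φ φ' : T → T} {e e' : ZMod (m + 3) → S}
    (h : Hom φ e (cycNb T m) nb) (h' : Hom φ' e' (cycNb T m) nb) (h0 : e 0 = e' 0)
    (h1 : e 1 = e' 1) : e = e' := by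
  funext z
  simpa using cyc_det_walk hp h h' h0 h1 z.val

theorem path_ne_cyc (hp : Pre nb) {m m' : ℕ} {α β : T} {e : Fin (m + 1) → S}
    {e' : ZMod (m' + 3) → S} (h : Hom id e (pathNb m α β) nb) (h' : Hom id e' (cycNb T m') nb)
    {i : ℕ} (hi : i < m + 1) (h0 : pathWalk α β e i = inr (e' 0))
    (h1 : pathWalk α β e (i + 1) = inr (e' 1)) : False := by
  have := (bwd hp (q := pathWalk α β e) (r := fun k : ℕ => inr (e' (-(i : ZMod (m' + 3)) + k))) i
    (fun k hk => hom_path_iff.1 h k (by omega)) (fun k _ => loc_cyc h' _ k)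
    (by simpa using h0) (by simpa using h1)).1
  simp at this

theorem exists_cyc_of_walk [Finite T] [Finite S] (hp : Pre nb) {q : ℕ → T ⊕ S}
    (hq : ∀ k, Loc nb q k) : ∃ (m : ℕ) (e : ZMod (m + 3) → S), Injective e ∧
      Hom id e (cycNb T m) nb ∧ ∀ k : ℕ, inr (e k) = q k := by
  classical
  have hex := exists_period hp hq
  obtain ⟨hP1, hP0, hP1'⟩ := Nat.find_spec hex
  have hinj := walk_injOn hp (L := Nat.find hex) (fun k _ => hq k)
    fun P h1 hP h => Nat.find_min hex hP ⟨h1, h⟩
  have h3 : 3 ≤ Nat.find hex := by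
    by_contra hlt
    obtain h | h : Nat.find hex = 1 ∨ Nat.find hex = 2 := by omega
    · rw [h] at hP0
      exact (hq 0).ne_succ hp hP0.symm
    · rw [h] at hP0
      exact (hq 0).ne hp hP0.symm
  obtain ⟨m, hm⟩ : ∃ m, Nat.find hex = m + 3 := ⟨Nat.find hex - 3, by omega⟩
  rw [hm] at hP0 hP1' hinj
  have hper : Function.Periodic q (m + 3) := by
    intro k
    have := (fwd hp (q := fun i => q (m + 3 + i)) (r := q) hP0 hP1' k (fun i _ => (hq _).shift)
      (fun i _ => hq i)).1
    rw [add_comm]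
    exact this
  choose w hw1 hw using hq
  let e : ZMod (m + 3) → S := fun z => w ((z - 1).val)
  have he : ∀ z, inr (e z) = q ((z - 1).val + 1) := fun z => (hw1 _).symm
  have hmod : ∀ a b : ℕ, (a : ZMod (m + 3)) = b → q a = q b := by
    intro a b hab
    rw [ZMod.natCast_eq_natCast_iff'] at hab
    rw [← hper.map_mod_nat a, ← hper.map_mod_nat b, hab]
  have hek : ∀ k : ℕ, inr (e k) = q k := fun k => by
    rw [he]
    exact hmod _ _ (by simp)
  refine ⟨m, e, fun z z' hzz' => ?_, fun z => ?_, hek⟩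
  · have h1 : q ((z - 1).val + 1) = q ((z' - 1).val + 1) := by rw [← he, ← he, hzz']
    have hz := ZMod.val_lt (z - 1)
    have hz' := ZMod.val_lt (z' - 1)
    rcases lt_trichotomy (z - 1).val (z' - 1).val with h | h | h
    · exact absurd h1 (hinj _ (by omega) _ (by omega) (by omega))
    · have := ZMod.val_injective _ h
      linear_combination this
    · exact absurd h1.symm (hinj _ (by omega) _ (by omega) (by omega))
  · change nb (w _) = _
    rw [hw, ← hek, ← hek]
    have h1 : (((z - 1).val : ℕ) : ZMod (m + 3)) = z - 1 := by simp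
    have h2 : (((z - 1).val + 2 : ℕ) : ZMod (m + 3)) = z + 1 := by
      rw [Nat.cast_add, h1]
      push_cast
      ring
    rw [h1, h2]
    simp [cycNb]

end Cycle

end Pool.Agent.MP_5f0aae_co

end

section

/-! Counting darts through embedded paths and cycles; signs of the automorphisms of the models. -/

namespace Pool.Agent.MP_5f0aae_co

open Finset Equiv Function Sum

variable {T S : Type} [DecidableEq T] [DecidableEq S] [Fintype T] [Fintype S]

def validPairs (T : Type) [DecidableEq T] [Fintype T] (m : ℕ) : Finset (T × T) :=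
  univ.filter fun y => m = 0 → y.1 ≠ y.2

theorem mem_validPairs {m : ℕ} {y : T × T} : y ∈ validPairs T m ↔ (m = 0 → y.1 ≠ y.2) := by
  simp [validPairs]

theorem count_darts {nb : S → Finset (T ⊕ S)} (hp : Pre nb) :
    2 * Fintype.card S =
      ∑ m ∈ range (Fintype.card S), ∑ y ∈ validPairs T m,
          (m + 1) * (embs (pathNb m y.1 y.2) nb).card +
        ∑ m ∈ range (Fintype.card S), (embs (cycNb T m) nb).card := by
  let A : Finset (Σ m : ℕ, Σ _ : T × T, ℕ × (Fin (m + 1) → S)) :=
    (range (Fintype.card S)).sigma fun m => (validPairs T m).sigma fun y =>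
      range (m + 1) ×ˢ embs (pathNb m y.1 y.2) nb
  let B : Finset (Σ m : ℕ, (ZMod (m + 3) → S)) :=
    (range (Fintype.card S)).sigma fun m => embs (cycNb T m) nb
  let D : Finset ((T ⊕ S) × (T ⊕ S)) :=
    (univ.sigma nb).image fun d => (d.2, inr d.1)
  have hD : D.card = 2 * Fintype.card S := by
    rw [card_image_of_injective, card_sigma]
    · simp [hp.card, mul_comm]
    · rintro ⟨v, a⟩ ⟨v', a'⟩ h
      simp only [Prod.mk.injEq, inr.injEq] at h
      rw [h.1, h.2]
  have hmemD : ∀ d, d ∈ D ↔ ∃ v, d.2 = inr v ∧ d.1 ∈ nb v := by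
    rintro ⟨a, b⟩
    simp only [D, mem_image, mem_sigma, mem_univ, true_and, Prod.mk.injEq]
    constructor
    · rintro ⟨⟨v, a'⟩, h1, rfl, rfl⟩
      exact ⟨v, rfl, h1⟩
    · rintro ⟨v, rfl, h⟩
      exact ⟨⟨v, a⟩, h, rfl, rfl⟩
  have hA : A.card = ∑ m ∈ range (Fintype.card S), ∑ y ∈ validPairs T m,
      (m + 1) * (embs (pathNb m y.1 y.2) nb).card := by
    simp [A, card_sigma]
  have hB : B.card = ∑ m ∈ range (Fintype.card S), (embs (cycNb T m) nb).card := by
    simp [B, card_sigma]
  rw [← hD, ← hA, ← hB, ← card_disjSum]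
  symm
  refine card_bij (fun y _ => Sum.elim
    (fun y => (pathWalk y.2.1.1 y.2.1.2 y.2.2.2 y.2.2.1,
      pathWalk y.2.1.1 y.2.1.2 y.2.2.2 (y.2.2.1 + 1)))
    (fun y => (inr (y.2 0), inr (y.2 1))) y) ?_ ?_ ?_
  · rintro (⟨m, ⟨α, β⟩, i, e⟩ | ⟨m, e⟩) hy
    · simp only [A, inl_mem_disjSum, mem_sigma, mem_product, mem_range, mem_embs] at hy
      obtain ⟨w, hw1, hw⟩ := hom_path_iff.1 hy.2.2.2.2 i hy.2.2.1
      exact (hmemD _).2 ⟨w, hw1, by simp [hw]⟩
    · simp only [B, inr_mem_disjSum, mem_sigma, mem_range, mem_embs] at hy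
      refine (hmemD _).2 ⟨e 1, rfl, hy.2.2.inr_mem ?_⟩
      simp [cycNb]
  · rintro (⟨m, ⟨α, β⟩, i, e⟩ | ⟨m, e⟩) hy (⟨m', ⟨α', β'⟩, i', e'⟩ | ⟨m', e'⟩) hy' h
    · simp only [A, inl_mem_disjSum, mem_sigma, mem_product, mem_range, mem_embs] at hy hy'
      simp only [Sum.elim_inl, Prod.mk.injEq] at h
      obtain ⟨-, -, hi, -, he⟩ := hy
      obtain ⟨-, -, hi', -, he'⟩ := hy'
      have key : i = i' ∧ α = α' ∧ e 0 = e' 0 := by
        rcases le_total i i' with hle | hle
        · exact path_det_pos hp he he' hi hi' hle h.1 h.2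
        · obtain ⟨h1, h2, h3⟩ := path_det_pos hp he' he hi' hi hle h.1.symm h.2.symm
          exact ⟨h1.symm, h2.symm, h3.symm⟩
      obtain ⟨rfl, rfl, h0⟩ := key
      obtain rfl : m = m' :=
        le_antisymm (path_det_length hp he' he h0.symm) (path_det_length hp he he' h0)
      obtain ⟨rfl, rfl⟩ := path_det hp he he' h0
      rfl
    · simp only [A, B, inl_mem_disjSum, inr_mem_disjSum, mem_sigma, mem_product, mem_range,
        mem_embs] at hy hy'
      simp only [Sum.elim_inl, Sum.elim_inr, Prod.mk.injEq] at h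
      exact (path_ne_cyc hp hy.2.2.2.2 hy'.2.2 hy.2.2.1 h.1 h.2).elim
    · simp only [A, B, inl_mem_disjSum, inr_mem_disjSum, mem_sigma, mem_product, mem_range,
        mem_embs] at hy hy'
      simp only [Sum.elim_inl, Sum.elim_inr, Prod.mk.injEq] at h
      exact (path_ne_cyc hp hy'.2.2.2.2 hy.2.2 hy'.2.2.1 h.1.symm h.2.symm).elim
    · simp only [B, inr_mem_disjSum, mem_sigma, mem_range, mem_embs] at hy hy'
      simp only [Sum.elim_inr, Prod.mk.injEq, inr.injEq] at h
      obtain rfl : m = m' :=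
        le_antisymm (cyc_det_length hp hy'.2.2 hy.2.2 hy.2.1 h.1.symm h.2.symm)
          (cyc_det_length hp hy.2.2 hy'.2.2 hy'.2.1 h.1 h.2)
      obtain rfl := cyc_det hp hy.2.2 hy'.2.2 h.1 h.2
      rfl
  · rintro ⟨a, b⟩ hd
    obtain ⟨v, rfl, ha⟩ := (hmemD _).1 hd
    simp only at ha
    obtain ⟨c, hc⟩ := exists_other hp ha
    have hcv : c ∈ nb v := by simp [hc]
    obtain ⟨r, hr0, hr1, hr⟩ := walk_cases hp hcv
    have hr2 : Loc nb r 0 → r 2 = a := by
      rintro ⟨w, hw1, hw⟩
      obtain rfl : w = v := inr_injective (hw1.symm.trans hr1)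
      refine pair_right_cancel (a := c) ?_ (by rw [← hr0, ← hw]; exact hp.card w)
      rw [pair_comm c a, ← hc, hw, hr0]
    rcases hr with hr | ⟨L, α, hr, hl⟩
    · obtain ⟨m, e, he1, he2, he3⟩ := exists_cyc_of_walk hp hr
      have hinj : Injective (e ∘ fun z => 2 - z) := he1.comp sub_right_injective
      refine ⟨inr ⟨m, e ∘ fun z => 2 - z⟩, ?_, ?_⟩
      · simp only [B, inr_mem_disjSum, mem_sigma, mem_range, mem_embs]
        refine ⟨?_, hinj, he2.comp (hom_cyc_refl id m 2)⟩
        have := Fintype.card_le_of_injective _ he1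
        rw [ZMod.card] at this
        omega
      · have h1 := he3 1
        have h2 := he3 2
        simp only [Sum.elim_inr, Function.comp_apply, sub_zero, Prod.mk.injEq]
        refine ⟨by rw [← hr2 (hr 0), ← h2]; simp, ?_⟩
        rw [← hr1, ← h1]
        norm_num
    · obtain ⟨w, hw1, hw⟩ := hr L (by omega)
      obtain ⟨m, β, e, he1, he2, he3, he4⟩ :=
        exists_path_of_dart hp (α := α) (v := w) (by simp [hw, hl])
      have hloc : ∀ k < L + 1, Loc nb (fun k => r (L + 2 - k)) k := by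
        intro k hk
        obtain ⟨u, hu1, hu⟩ := hr (L - k) (by omega)
        refine ⟨u, ?_, ?_⟩
        · change r (L + 2 - (k + 1)) = _
          rw [← hu1]
          congr 1
          omega
        · change _ = {r (L + 2 - k), r (L + 2 - (k + 2))}
          rw [hu, pair_comm]
          congr 3 <;> omega
      have hfw := fun c (h1 : c ≤ m + 1) (h2 : c ≤ L + 1) =>
        fwd hp (q := pathWalk α β e) (r := fun k => r (L + 2 - k)) hl.symm
          (by rw [pathWalk_succ α β e (Nat.succ_pos m)]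
              exact (congrArg inr he4).trans hw1.symm) c
          (fun k hk => hom_path_iff.1 he2 k (by omega)) (fun k hk => hloc k (by omega))
      have hLm : L ≤ m := by
        by_contra hlt
        have h1 := (hfw (m + 1) le_rfl (by omega)).2
        obtain ⟨u, hu1, -⟩ := hr (L - m - 1) (by omega)
        rw [pathWalk_last, show L + 2 - (m + 1 + 1) = L - m - 1 + 1 by omega, hu1] at h1
        simp at h1
      refine ⟨inl ⟨m, (α, β), L, e⟩, ?_, ?_⟩
      · simp only [A, inl_mem_disjSum, mem_sigma, mem_product, mem_range, mem_embs, mem_validPairs]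
        refine ⟨?_, he3, by omega, he1, he2⟩
        simpa using Fintype.card_le_of_injective _ he1
      · have h1 := hfw L (by omega) (by omega)
        simp only [Sum.elim_inl, Prod.mk.injEq]
        rw [h1.1, h1.2, ← hr2 (hr 0 (by omega)), ← hr1]
        constructor <;> congr 1 <;> omega

section Signs

variable {K : Type*} [Field K]

theorem sign_revPerm (j : ℕ) : Perm.sign (Fin.revPerm : Perm (Fin j)) = (-1) ^ (j / 2) := by
  rw [Perm.sign_eq_prod_prod_Iio]
  have h1 : ∀ i : Fin j, ∏ k ∈ Iio i, (if Fin.revPerm k < Fin.revPerm i then (1 : ℤˣ) else -1) =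
      (-1) ^ (i : ℕ) := by
    intro i
    rw [prod_congr rfl (g := fun _ => -1), prod_const, Fin.card_Iio]
    intro k hk
    rw [if_neg]
    simpa using (mem_Iio.1 hk).le
  simp only [h1]
  rw [Fin.prod_univ_eq_prod_range (fun i => (-1 : ℤˣ) ^ i)]
  induction j with
  | zero => simp
  | succ j ih =>
    rw [prod_range_succ, ih fun i => ?_]
    · rw [← pow_add]
      rcases Nat.even_or_odd' j with ⟨k, rfl | rfl⟩
      · rw [show (2 * k + 1) / 2 = k by omega, show 2 * k / 2 = k by omega, pow_add, pow_mul]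
        simp
      · rw [show (2 * k + 1 + 1) / 2 = k + 1 by omega, show (2 * k + 1) / 2 = k by omega,
          pow_add, pow_succ, pow_succ, pow_mul]
        simp
    · rw [prod_congr rfl (g := fun _ => -1), prod_const, Fin.card_Iio]
      intro k hk
      rw [if_neg]
      simpa using (mem_Iio.1 hk).le

omit [DecidableEq T] [Fintype T] in
theorem inl_eq_pathSeq {m : ℕ} {α β γ : T} {k : ℕ} :
    inl γ = pathSeq m α β k ↔ (k = 0 ∧ γ = α) ∨ (m + 2 ≤ k ∧ γ = β) := by
  unfold pathSeq
  split_ifs with h1 h2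
  · simp [h1]
  · simp only [false_iff]
    omega
  · simp only [inl.injEq, h1, false_and, false_or]
    exact (and_iff_right (by omega)).symm

omit [Fintype T] in
theorem sum_sign_path (φ : Perm T) {m : ℕ} {α β : T} (h : m = 0 → α ≠ β) :
    ∑ δ ∈ auts φ (pathNb m α β), ((Perm.sign δ : ℤ) : K) =
      (if φ α = α ∧ φ β = β then 1 else 0) +
        (if φ α = β ∧ φ β = α then (-1) ^ ((m + 1) / 2) else 0) := by
  classical
  have hp := pre_pathNb h
  have hmem : ∀ δ : Perm (Fin (m + 1)), δ ∈ auts φ (pathNb m α β) ↔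
      (δ = 1 ∧ φ α = α ∧ φ β = β) ∨ (δ = Fin.revPerm ∧ φ α = β ∧ φ β = α) := by
    intro δ
    rw [mem_auts]
    constructor
    · intro hδ
      have h1 : Hom id δ (pathNb m (φ α) (φ β)) (pathNb m α β) := by
        have h2 := hδ.comp (hom_path_map φ.symm m (φ α) (φ β) |>.comp (Hom.refl _) |> fun h => by
          simpa using h)
        simpa using h2
      have h2 : inl (φ α) ∈ pathNb m α β (δ 0) := hδ.inl_mem (by simp [pathNb])
      simp only [pathNb, mem_insert, mem_singleton, inl_eq_pathSeq] at h2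
      have h3 : (φ α = α ∧ δ 0 = 0) ∨ (φ α = β ∧ δ 0 = Fin.rev 0) := by
        have hδ0 := (δ 0).isLt
        rcases h2 with (⟨h, h'⟩ | ⟨h, h'⟩) | (⟨h, h'⟩ | ⟨h, h'⟩)
        · exact Or.inl ⟨h', Fin.ext h⟩
        · omega
        · omega
        · refine Or.inr ⟨h', Fin.ext ?_⟩
          simp only [Fin.val_rev, Fin.val_zero]
          omega
      rcases h3 with ⟨h3, h4⟩ | ⟨h3, h4⟩
      · rw [h3] at h1
        obtain ⟨h5, h6⟩ := path_det hp h1 (Hom.refl _) h4
        exact Or.inl ⟨Equiv.ext (congrFun h6), h3, h5⟩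
      · rw [h3] at h1
        obtain ⟨h5, h6⟩ := path_det hp h1 (hom_path_rev m α β) h4
        exact Or.inr ⟨Equiv.ext (congrFun h6), h3, h5⟩
    · rintro (⟨rfl, h1, h2⟩ | ⟨rfl, h1, h2⟩)
      · have := hom_path_map φ m α β
        rwa [h1, h2] at this
      · have := hom_path_map φ m α β
        rw [h1, h2] at this
        exact (hom_path_rev m α β).comp this
  by_cases h1 : φ α = α ∧ φ β = β <;> by_cases h2 : φ α = β ∧ φ β = α
  · have hne : (1 : Perm (Fin (m + 1))) ≠ Fin.revPerm := by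
      intro he
      have h3 := congrArg (fun δ : Perm (Fin (m + 1)) => ((δ 0 : Fin (m + 1)) : ℕ)) he
      simp at h3
      exact h h3.symm (h1.1.symm.trans h2.1)
    have : auts φ (pathNb m α β) = {1, Fin.revPerm} := by
      ext δ
      rw [hmem, and_iff_left h1, and_iff_left h2]
      simp
    rw [this, sum_pair hne, if_pos h1, if_pos h2, sign_revPerm]
    simp
  · have : auts φ (pathNb m α β) = {1} := by
      ext δ
      simp only [hmem, h2, and_false, or_false, mem_singleton]
      simp [h1]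
    rw [this, if_pos h1, if_neg h2]
    simp
  · have : auts φ (pathNb m α β) = {Fin.revPerm} := by
      ext δ
      simp only [hmem, h1, and_false, false_or, mem_singleton]
      simp [h2]
    rw [this, if_neg h1, if_pos h2, sum_singleton, sign_revPerm]
    simp
  · have : auts φ (pathNb m α β) = ∅ := by
      ext δ
      simp only [hmem, h1, h2, and_false, or_false]
      simp
    rw [this, if_neg h1, if_neg h2]
    simp

theorem sign_addLeft_one (m : ℕ) :
    Perm.sign (Equiv.addLeft (1 : ZMod (m + 3))) = (-1) ^ m := by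
  have : Equiv.addLeft (1 : ZMod (m + 3)) = finRotate (m + 3) := by
    refine Equiv.ext fun z => ?_
    refine Eq.trans ?_ (finRotate_apply (n := m + 3) z).symm
    exact add_comm (1 : ZMod (m + 3)) z
  have h2 := sign_finRotate (m + 3)
  rw [← this] at h2
  refine h2.trans ?_
  simp [pow_add]

theorem sign_addLeft (m : ℕ) (c : ZMod (m + 3)) :
    Perm.sign (Equiv.addLeft c) = ((-1) ^ m) ^ c.val := by
  have : Equiv.addLeft c = Equiv.addLeft (1 : ZMod (m + 3)) ^ c.val := by
    have key : ∀ k : ℕ, Equiv.addLeft (1 : ZMod (m + 3)) ^ k =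
        Equiv.addLeft (k : ZMod (m + 3)) := by
      intro k
      induction k with
      | zero => ext z; simp
      | succ k ih => rw [pow_succ, ih]; ext z; simp
    rw [key]
    simp
  rw [this, map_pow, sign_addLeft_one]

theorem sign_subLeft_neg_one (m : ℕ) :
    Perm.sign (Equiv.subLeft (-1 : ZMod (m + 3))) = (-1) ^ ((m + 3) / 2) := by
  have : Equiv.subLeft (-1 : ZMod (m + 3)) = (Fin.revPerm : Perm (Fin (m + 3))) := by
    ext z
    have h1 : ((Fin.rev z : Fin (m + 3)) : ZMod (m + 3)) =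
        ((m + 3 - (ZMod.val z + 1) : ℕ) : ZMod (m + 3)) := by
      rw [← ZMod.natCast_zmod_val (n := m + 3) (Fin.rev z)]
      rfl
    change (-1 : ZMod (m + 3)) - z = Fin.rev z
    rw [h1, Nat.cast_sub (ZMod.val_lt z), ZMod.natCast_self]
    simp
    ring
  have h2 := sign_revPerm (m + 3)
  rw [← this] at h2
  exact h2

omit [Fintype T] in
theorem sum_sign_cyc (φ : Perm T) (m : ℕ) :
    ∑ δ ∈ auts φ (cycNb T m), ((Perm.sign δ : ℤ) : K) =
      if (m + 3) % 4 = 1 then 2 * ((m + 3 : ℕ) : K) else 0 := by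
  classical
  have hp := pre_cycNb (T := T) m
  have hA : auts φ (cycNb T m) =
      univ.image (fun c : ZMod (m + 3) => Equiv.addLeft c) ∪
        univ.image (fun c : ZMod (m + 3) => Equiv.addLeft c * Equiv.subLeft (-1)) := by
    ext δ
    simp only [mem_auts, mem_union, mem_image, mem_univ, true_and]
    constructor
    · intro hδ
      have h1 : inr (δ 1) ∈ cycNb T m (δ 0) := hδ.inr_mem (by simp [cycNb])
      simp only [cycNb, mem_insert, mem_singleton, inr.injEq] at h1
      rcases h1 with h1 | h1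
      · refine Or.inr ⟨δ 0 + 1, Equiv.ext fun z => ?_⟩
        have := congrFun (cyc_det hp hδ (hom_cyc_refl id m (δ 0)) (by simp) h1) z
        simp only [Perm.mul_apply, Equiv.subLeft_apply, Equiv.coe_addLeft, this]
        ring
      · refine Or.inl ⟨δ 0, Equiv.ext fun z => ?_⟩
        have := congrFun (cyc_det hp hδ (hom_cyc_rot id m (δ 0)) (by simp) h1) z
        simp [this]
    · rintro (⟨c, rfl⟩ | ⟨c, rfl⟩)
      · exact hom_cyc_rot φ m c
      · exact (hom_cyc_rot φ m c).comp (hom_cyc_refl id m (-1))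
  have hinj : Injective fun c : ZMod (m + 3) => Equiv.addLeft c := fun c c' h => by
    simpa using congrArg (fun δ : Perm (ZMod (m + 3)) => δ 0) h
  rw [hA, sum_union, sum_image hinj.injOn, sum_image]
  · simp only [map_mul, sign_addLeft, sign_subLeft_neg_one, Units.val_mul, Int.cast_mul]
    rw [← sum_mul]
    have hs : ∑ c : ZMod (m + 3), ((((((-1) ^ m) ^ c.val : ℤˣ)) : ℤ) : K) =
        ∑ i ∈ range (m + 3), ((-1) ^ m) ^ i := by
      rw [← Fin.sum_univ_eq_sum_range]
      refine sum_congr rfl fun c _ => ?_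
      simp
      rfl
    rw [hs]
    rcases Nat.even_or_odd m with hm | hm
    · rw [hm.neg_one_pow]
      simp only [one_pow, sum_const, card_range, nsmul_eq_mul, mul_one]
      obtain ⟨k, hk⟩ := hm
      split_ifs with h4
      · have : Even ((m + 3) / 2) := by rw [Nat.even_iff]; omega
        rw [this.neg_one_pow]
        simp
        ring
      · have : Odd ((m + 3) / 2) := by rw [Nat.odd_iff]; omega
        rw [this.neg_one_pow]
        simp
    · rw [hm.neg_one_pow, neg_one_geom_sum, if_pos (hm.add_odd (by decide)), if_neg]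
      · simp
      · obtain ⟨k, hk⟩ := hm
        omega
  · intro c _ c' _ h
    exact hinj (mul_right_cancel h)
  · rw [disjoint_left]
    intro δ h1 h2
    simp only [mem_image, mem_univ, true_and] at h1 h2
    obtain ⟨c, rfl⟩ := h1
    obtain ⟨c', h⟩ := h2
    have h0 := congrArg (fun δ : Perm (ZMod (m + 3)) => δ 0) h
    have h1 := congrArg (fun δ : Perm (ZMod (m + 3)) => δ 1) h
    simp only [Perm.mul_apply, Equiv.subLeft_apply, Equiv.coe_addLeft] at h0 h1
    exact zmod_two_ne_zero m (by linear_combination h0 - h1)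

end Signs

end Pool.Agent.MP_5f0aae_co

end

section

/-! The recurrence for the signed weight of the structures. -/

namespace Pool.Agent.MP_5f0aae_co

open Finset Equiv Function Sum

variable {T : Type} [DecidableEq T] [Fintype T] {K : Type*} [Field K]

/-- The number of fixed points of `τ ^ n`. -/
def fixc (τ : Perm T) (n : ℕ) : ℕ := (univ.filter fun a => (τ ^ n) a = a).card

theorem sum_validPairs (τ : Perm T) (n m : ℕ) (ε : K) :
    ∑ y ∈ validPairs T m, ((if (τ ^ n) y.1 = y.1 ∧ (τ ^ n) y.2 = y.2 then (1 : K) else 0) +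
        (if (τ ^ n) y.1 = y.2 ∧ (τ ^ n) y.2 = y.1 then ε else 0)) =
      ((fixc τ n : K) ^ 2 - if m = 0 then (fixc τ n : K) else 0) +
        ε * ((fixc τ (2 * n) : K) - if m = 0 then (fixc τ n : K) else 0) := by
  have hfix : ∀ k, (fixc τ k : K) = ∑ a, if (τ ^ k) a = a then 1 else 0 := fun k => by
    simp [fixc]
  have h1 : ∑ y : T × T, (if (τ ^ n) y.1 = y.1 ∧ (τ ^ n) y.2 = y.2 then (1 : K) else 0) =
      (fixc τ n : K) ^ 2 := by
    rw [hfix, sq, sum_mul_sum, Fintype.sum_prod_type]
    refine sum_congr rfl fun a _ => sum_congr rfl fun b _ => ?_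
    by_cases ha : (τ ^ n) a = a <;> by_cases hb : (τ ^ n) b = b <;> simp [ha, hb]
  have h2 : ∑ y : T × T, (if (τ ^ n) y.1 = y.2 ∧ (τ ^ n) y.2 = y.1 then ε else 0) =
      ε * fixc τ (2 * n) := by
    rw [hfix, Fintype.sum_prod_type, mul_sum]
    refine sum_congr rfl fun a _ => ?_
    rw [sum_eq_single ((τ ^ n) a)]
    · simp [two_mul, pow_add]
    · intro b _ hb
      rw [if_neg fun h => hb h.1.symm]
    · simp
  have hall := sum_add_distrib (s := (univ : Finset (T × T)))
    (f := fun y => if (τ ^ n) y.1 = y.1 ∧ (τ ^ n) y.2 = y.2 then (1 : K) else 0)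
    (g := fun y => if (τ ^ n) y.1 = y.2 ∧ (τ ^ n) y.2 = y.1 then ε else 0)
  rw [h1, h2] at hall
  by_cases hm : m = 0
  · have hsplit := sum_filter_add_sum_filter_not (univ : Finset (T × T)) (fun y => y.1 = y.2)
      fun y => (if (τ ^ n) y.1 = y.1 ∧ (τ ^ n) y.2 = y.2 then (1 : K) else 0) +
        (if (τ ^ n) y.1 = y.2 ∧ (τ ^ n) y.2 = y.1 then ε else 0)
    have hdiag : ∑ y ∈ (univ : Finset (T × T)).filter (fun y => y.1 = y.2),
        ((if (τ ^ n) y.1 = y.1 ∧ (τ ^ n) y.2 = y.2 then (1 : K) else 0) +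
          (if (τ ^ n) y.1 = y.2 ∧ (τ ^ n) y.2 = y.1 then ε else 0)) =
        (1 + ε) * fixc τ n := by
      rw [sum_filter, Fintype.sum_prod_type, hfix, mul_sum]
      refine sum_congr rfl fun a _ => ?_
      rw [sum_eq_single a]
      · by_cases ha : (τ ^ n) a = a <;> simp [ha]
      · intro b _ hb
        rw [if_neg hb.symm]
      · simp
    have hv : validPairs T m = (univ : Finset (T × T)).filter fun y => ¬ y.1 = y.2 := by
      ext y
      simp [mem_validPairs, hm]
    rw [hdiag, hall] at hsplit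
    rw [hv, if_pos hm]
    linear_combination hsplit
  · have hv : validPairs T m = univ := by
      ext y
      simp [mem_validPairs, hm]
    rw [hv, hall, if_neg hm]
    ring

theorem sum_reindex_mul {s j : ℕ} (hj : 1 ≤ j) (F G : ℕ → K) (hF : ∀ m, s < m → F m = 0) :
    ∑ n ∈ range s, F ((n + 1) * j) * G (n + 1) =
      ∑ m ∈ Icc 1 s, if j ∣ m then F m * G (m / j) else 0 := by
  rw [← sum_filter, ← sum_filter_of_ne (p := fun n => (n + 1) * j ≤ s)]
  · refine sum_nbij' (fun n => (n + 1) * j) (fun m => m / j - 1) ?_ ?_ ?_ ?_ ?_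
    · intro n hn
      simp only [mem_filter, mem_range, mem_Icc] at hn ⊢
      exact ⟨⟨Nat.mul_pos (by omega) hj, hn.2⟩, dvd_mul_left _ _⟩
    · intro m hm
      simp only [mem_filter, mem_range, mem_Icc] at hm ⊢
      obtain ⟨⟨h1, h2⟩, k, rfl⟩ := hm
      rw [Nat.mul_div_cancel_left _ hj]
      have hk : 0 < k := Nat.pos_of_mul_pos_left h1
      have : k ≤ j * k := Nat.le_mul_of_pos_left _ hj
      rw [Nat.sub_add_cancel hk, mul_comm]
      omega
    · intro n _
      simp [Nat.mul_div_cancel _ hj]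
    · intro m hm
      simp only [mem_filter, mem_Icc] at hm
      obtain ⟨⟨h1, h2⟩, k, rfl⟩ := hm
      have hk : 0 < k := Nat.pos_of_mul_pos_left h1
      rw [Nat.mul_div_cancel_left _ hj, Nat.sub_add_cancel hk, mul_comm]
    · intro n _
      rw [Nat.mul_div_cancel _ hj]
  · intro n _ hn
    by_contra hlt
    exact hn (by rw [hF _ (by omega), zero_mul])

theorem sum_range_dvd {s m c : ℕ} (hc : 1 ≤ c) (hm : m ∈ Icc 1 s) (A : ℕ → K) :
    ∑ j ∈ range s, (if j + c ∣ m then A (j + c) else 0) =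
      ∑ j ∈ m.divisors, if c ≤ j then A j else 0 := by
  rw [mem_Icc] at hm
  rw [← sum_filter, ← sum_filter]
  refine sum_nbij' (fun j => j + c) (fun j => j - c) ?_ ?_ ?_ ?_ fun _ _ => rfl
  · intro j hj
    simp only [mem_filter, Nat.mem_divisors] at hj ⊢
    exact ⟨⟨hj.2, by omega⟩, by omega⟩
  · intro j hj
    simp only [mem_filter, Nat.mem_divisors, mem_range] at hj ⊢
    have := Nat.le_of_dvd (by omega) hj.1.1
    rw [Nat.sub_add_cancel hj.2]
    exact ⟨by omega, hj.1.1⟩
  · intro j _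
    simp
  · intro j hj
    exact Nat.sub_add_cancel (mem_filter.1 hj).2

/-- Contribution of `n` copies of a path with `j` points. -/
def kP (x : K) (τ : Perm T) (n j : ℕ) : K :=
  j * x ^ n * (((fixc τ n : K) ^ 2 - if j = 1 then (fixc τ n : K) else 0) +
    (-1) ^ (j / 2) * ((fixc τ (2 * n) : K) - if j = 1 then (fixc τ n : K) else 0))

/-- Contribution of copies of a cycle with `j` points. -/
def kC (K : Type*) [Field K] (j : ℕ) : K := if 3 ≤ j then (if j % 4 = 1 then 2 * j else 0) else 0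

theorem W_rec (x : K) (τ : Perm T) (s : ℕ) :
    2 * s * Wn x τ s = ∑ m ∈ Icc 1 s, (s.descFactorial m : K) * Wn x τ (s - m) *
      ∑ j ∈ m.divisors, (-1) ^ (m + j) * (kP x τ (m / j) j + kC K j) := by
  have h0 : 2 * s * Wn x τ s = ∑ p ∈ St τ (Fin s), wt x p * ((2 * s : ℕ) : K) := by
    rw [← sum_mul, Wn, W]
    push_cast
    ring
  have h1 : ∀ p ∈ St τ (Fin s), wt x p * ((2 * s : ℕ) : K) =
      ∑ m ∈ range s, ∑ y ∈ validPairs T m,
          ((m + 1 : ℕ) : K) * (wt x p * (embs (pathNb m y.1 y.2) p.2).card) +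
        ∑ m ∈ range s, wt x p * (embs (cycNb T m) p.2).card := by
    intro p hp
    have := count_darts (mem_St.1 hp).1
    rw [Fintype.card_fin] at this
    rw [this]
    push_cast
    simp only [mul_add, mul_sum]
    congr 1
    exact sum_congr rfl fun _ _ => sum_congr rfl fun _ _ => by ring
  set F : ℕ → K := fun m => (s.descFactorial m : K) * Wn x τ (s - m) with hF
  have hF0 : ∀ m, s < m → F m = 0 := fun m hm => by
    simp [hF, Nat.descFactorial_of_lt hm]
  have hpath : ∀ m ∈ range s, ∑ p ∈ St τ (Fin s), ∑ y ∈ validPairs T m,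
      ((m + 1 : ℕ) : K) * (wt x p * (embs (pathNb m y.1 y.2) p.2).card) =
      ∑ l ∈ Icc 1 s, if m + 1 ∣ l then
        F l * ((-1) ^ (l / (m + 1) * (m + 1) + (m + 1)) * kP x τ (l / (m + 1)) (m + 1)) else 0 := by
    intro m _
    rw [← sum_reindex_mul (by omega) F
      (fun n => (-1) ^ (n * (m + 1) + (m + 1)) * kP x τ n (m + 1)) hF0, sum_comm]
    have h2 : ∀ y ∈ validPairs T m, ∑ p ∈ St τ (Fin s),
        ((m + 1 : ℕ) : K) * (wt x p * (embs (pathNb m y.1 y.2) p.2).card) =
        ∑ n ∈ range s, F ((n + 1) * (m + 1)) * ((-1) ^ (n * (m + 1)) * ((m + 1 : ℕ) : K) *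
          x ^ (n + 1)) *
          ((if (τ ^ (n + 1)) y.1 = y.1 ∧ (τ ^ (n + 1)) y.2 = y.2 then (1 : K) else 0) +
        (if (τ ^ (n + 1)) y.1 = y.2 ∧ (τ ^ (n + 1)) y.2 = y.1 then (-1) ^ ((m + 1) / 2) else 0)) := by
      intro y hy
      have hy' := mem_validPairs.1 hy
      rw [← mul_sum, sum_wt_embs x τ (pre_pathNb hy') (conn_pathNb m y.1 y.2) (td_pathNb hy'),
        mul_sum, Fintype.card_fin]
      refine sum_congr rfl fun n _ => ?_
      rw [sum_sign_path _ hy', Fintype.card_fin, hF]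
      ring
    rw [sum_congr rfl h2, sum_comm]
    refine sum_congr rfl fun n _ => ?_
    rw [← mul_sum, sum_validPairs, kP]
    have h3 : (-1 : K) ^ ((n + 1) * (m + 1) + (m + 1)) = (-1) ^ (n * (m + 1)) := by
      rw [show (n + 1) * (m + 1) + (m + 1) = n * (m + 1) + 2 * (m + 1) by ring, pow_add, pow_mul]
      simp
    simp only [h3, Nat.add_eq_right]
    ring
  have hcyc : ∀ m ∈ range s, ∑ p ∈ St τ (Fin s), wt x p * (embs (cycNb T m) p.2).card =
      ∑ l ∈ Icc 1 s, if m + 3 ∣ l then
        F l * ((-1) ^ (l / (m + 3) * (m + 3) + (m + 3)) * kC K (m + 3)) else 0 := by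
    intro m _
    rw [← sum_reindex_mul (by omega) F
      (fun n => (-1) ^ (n * (m + 3) + (m + 3)) * kC K (m + 3)) hF0,
      sum_wt_embs x τ (pre_cycNb m) (conn_cycNb m) (td_cycNb m), Fintype.card_fin]
    refine sum_congr rfl fun n _ => ?_
    have h3 : (-1 : K) ^ ((n + 1) * (m + 3) + (m + 3)) = (-1) ^ (n * (m + 3)) := by
      rw [show (n + 1) * (m + 3) + (m + 3) = n * (m + 3) + 2 * (m + 3) by ring, pow_add, pow_mul]
      simp
    rw [sum_sign_cyc, ZMod.card, hF, h3, kC, if_pos (show 3 ≤ m + 3 by omega)]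
    ring
  rw [h0, sum_congr rfl h1, sum_add_distrib, sum_comm, sum_congr rfl hpath,
    sum_comm (s := St τ (Fin s)), sum_congr rfl hcyc, sum_comm, sum_comm (s := range s),
    ← sum_add_distrib]
  refine sum_congr rfl fun l hl => ?_
  rw [sum_range_dvd le_rfl hl
      fun j => F l * ((-1) ^ (l / j * j + j) * kP x τ (l / j) j),
    sum_range_dvd (by omega) hl fun j => F l * ((-1) ^ (l / j * j + j) * kC K j),
    ← sum_add_distrib, mul_sum]
  refine sum_congr rfl fun j hj => ?_
  rw [Nat.div_mul_cancel (Nat.dvd_of_mem_divisors hj), 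
    if_pos (show 1 ≤ j from Nat.pos_of_mem_divisors hj)]
  split_ifs with h3
  · simp only [hF]
    ring
  · simp only [hF, kC, if_neg h3]
    ring

theorem Wn_zero (x : K) (τ : Perm T) : Wn x τ 0 = 1 := by
  have : St τ (Fin 0) = {(1, Fin.elim0)} := by
    ext p
    simp only [mem_St, mem_singleton]
    constructor
    · exact fun _ => Prod.ext (Subsingleton.elim _ _) (funext fun v => v.elim0)
    · rintro rfl
      exact ⟨⟨fun v => v.elim0, fun v => v.elim0, fun v => v.elim0⟩, fun v => v.elim0⟩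
  simp [Wn, W, this, wt, td]

/-- The coefficients of the exponential generating function. -/
noncomputable def aCoef (x : K) (τ : Perm T) (s : ℕ) : K :=
  (-x) ^ s * Wn x τ s / s.factorial

/-- Twice the logarithmic derivative. -/
def kCoef (x : K) (τ : Perm T) (m : ℕ) : K :=
  ∑ j ∈ m.divisors, (-1) ^ j * x ^ m * (kP x τ (m / j) j + kC K j)

theorem aCoef_rec [CharZero K] (x : K) (τ : Perm T) (s : ℕ) :
    2 * s * aCoef x τ s = ∑ m ∈ Icc 1 s, kCoef x τ m * aCoef x τ (s - m) := by
  have h := W_rec x τ s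
  have hs : (s.factorial : K) ≠ 0 := Nat.cast_ne_zero.2 s.factorial_ne_zero
  have h1 : 2 * s * aCoef x τ s = (-x) ^ s / s.factorial * (2 * s * Wn x τ s) := by
    rw [aCoef]
    ring
  rw [h1, h, mul_sum]
  refine sum_congr rfl fun m hm => ?_
  obtain ⟨k, rfl⟩ := Nat.exists_eq_add_of_le (mem_Icc.1 hm).2
  have hk : (k.factorial : K) ≠ 0 := Nat.cast_ne_zero.2 k.factorial_ne_zero
  have h2 : (((m + k).descFactorial m : ℕ) : K) = (m + k).factorial / k.factorial := by
    have := Nat.factorial_mul_descFactorial (Nat.le_add_right m k)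
    rw [Nat.add_sub_cancel_left] at this
    rw [← this]
    push_cast
    field_simp
  rw [kCoef, aCoef, Nat.add_sub_cancel_left, h2, mul_sum, mul_sum, sum_mul]
  refine sum_congr rfl fun j _ => ?_
  have h3 : (-x) ^ m = (-1) ^ m * x ^ m := neg_pow x m
  have h4 : ((-1 : K) ^ m) * (-1) ^ m = 1 := by
    rw [← mul_pow]
    simp
  rw [pow_add, pow_add, h3]
  field_simp
  linear_combination (x ^ m * (-x) ^ k * Wn x τ k * (kP x τ (m / j) j + kC K j)) * h4

end Pool.Agent.MP_5f0aae_co

end
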