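import Pool.Agent.Mg.F5f0aae.G76cd12
import Pool.Agent.MP_5f0aae_co.Defs

section

/-! Invariant subsets, orbits and cycle types. -/

namespace Pool.Agent.MP_5f0aae_co

open Finset Equiv Function

variable {Ω : Type} [DecidableEq Ω] [Fintype Ω] {K : Type*} [Field K]

def Inv (π : Perm Ω) (A : Finset Ω) : Prop := ∀ a, π a ∈ A ↔ a ∈ A

instance (π : Perm Ω) : DecidablePred (Inv π) := fun _ => by unfold Inv; infer_instance

def invs (π : Perm Ω) (D : Finset Ω) : Finset (Finset Ω) := D.powerset.filter (Inv π)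

theorem mem_invs {π : Perm Ω} {D A : Finset Ω} : A ∈ invs π D ↔ A ⊆ D ∧ Inv π A := by
  simp [invs]

def orb (π : Perm Ω) (ω : Ω) : Finset Ω := univ.filter (π.SameCycle ω)

theorem mem_orb {π : Perm Ω} {ω a : Ω} : a ∈ orb π ω ↔ π.SameCycle ω a := by simp [orb]

theorem self_mem_orb (π : Perm Ω) (ω : Ω) : ω ∈ orb π ω := mem_orb.2 Perm.SameCycle.rfl

theorem inv_orb (π : Perm Ω) (ω : Ω) : Inv π (orb π ω) := fun a => by
  simp [mem_orb]

omit [DecidableEq Ω] [Fintype Ω] in
theorem Inv.pow {π : Perm Ω} {A : Finset Ω} (h : Inv π A) (n : ℕ) (a : Ω) :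
    (π ^ n) a ∈ A ↔ a ∈ A := by
  induction n with
  | zero => simp
  | succ n ih => rw [pow_succ', Perm.mul_apply, h, ih]

theorem Inv.mem_iff {π : Perm Ω} {A : Finset Ω} (h : Inv π A) {ω a : Ω} (ha : a ∈ orb π ω) :
    a ∈ A ↔ ω ∈ A := by
  obtain ⟨i, -, rfl⟩ := (mem_orb.1 ha).exists_pow_eq'
  exact h.pow i ω

omit [Fintype Ω] in
theorem Inv.sdiff {π : Perm Ω} {A B : Finset Ω} (hA : Inv π A) (hB : Inv π B) : Inv π (A \ B) :=
  fun a => by simp only [mem_sdiff, hA a, hB a]

omit [Fintype Ω] in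
theorem Inv.union {π : Perm Ω} {A B : Finset Ω} (hA : Inv π A) (hB : Inv π B) : Inv π (A ∪ B) :=
  fun a => by simp only [mem_union, hA a, hB a]

theorem isCycleOn_orb (π : Perm Ω) (ω : Ω) : π.IsCycleOn (orb π ω) :=
  ⟨π.bijOn (inv_orb π ω), fun _ ha _ hb => (mem_orb.1 ha).symm.trans (mem_orb.1 hb)⟩

theorem sum_invs_step {π : Perm Ω} {D : Finset Ω} (hD : Inv π D) {ω : Ω} (hω : ω ∈ D)
    (w : Finset Ω → K) (c : K)
    (hw : ∀ A, Inv π A → Disjoint A (orb π ω) → w (A ∪ orb π ω) = w A * c) :
    ∑ A ∈ invs π D, w A = (1 + c) * ∑ A ∈ invs π (D \ orb π ω), w A := by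
  rw [← sum_filter_add_sum_filter_not (invs π D) (fun A => ω ∉ A), add_mul, one_mul]
  congr 1
  · refine sum_congr ?_ fun _ _ => rfl
    ext A
    simp only [mem_filter, mem_invs, subset_sdiff, disjoint_left]
    constructor
    · rintro ⟨⟨h1, h2⟩, h3⟩
      exact ⟨⟨h1, fun a ha ha' => h3 ((h2.mem_iff ha').1 ha)⟩, h2⟩
    · rintro ⟨⟨h1, h3⟩, h2⟩
      exact ⟨⟨h1, h2⟩, fun h => h3 h (self_mem_orb π ω)⟩
  · rw [mul_sum]
    symm
    refine sum_nbij' (fun A => A ∪ orb π ω) (fun A => A \ orb π ω) ?_ ?_ ?_ ?_ ?_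
    · intro A hA
      simp only [mem_filter, mem_invs, subset_sdiff, not_not] at hA ⊢
      refine ⟨⟨union_subset hA.1.1 fun a ha => (hD.mem_iff ha).2 hω, hA.2.union (inv_orb π ω)⟩, ?_⟩
      exact mem_union_right _ (self_mem_orb π ω)
    · intro A hA
      simp only [mem_filter, mem_invs, not_not] at hA ⊢
      exact ⟨sdiff_subset_sdiff hA.1.1 Subset.rfl, hA.1.2.sdiff (inv_orb π ω)⟩
    · intro A hA
      simp only [mem_invs, subset_sdiff] at hA
      exact union_sdiff_cancel_right hA.1.2
    · intro A hA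
      simp only [mem_filter, mem_invs, not_not] at hA
      exact sdiff_union_of_subset fun a ha => (hA.1.2.mem_iff ha).2 hA.2
    · intro A hA
      simp only [mem_invs, subset_sdiff] at hA
      rw [hw A hA.2 hA.1.2, mul_comm]

/-- The sum of the members of `M` that divide `n`. -/
def dsum (M : Multiset ℕ) (n : ℕ) : ℕ := (M.map fun L => if L ∣ n then L else 0).sum

theorem exists_orbit_sizes (π : Perm Ω) (x : K) (D : Finset Ω) (hD : Inv π D) :
    ∃ M : Multiset ℕ, 0 ∉ M ∧ (∀ n, (D.filter fun a => (π ^ n) a = a).card = dsum M n) ∧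
      ∑ A ∈ invs π D, x ^ A.card = (M.map fun L => 1 + x ^ L).prod := by
  induction D using Finset.strongInduction with
  | H D ih =>
    rcases D.eq_empty_or_nonempty with rfl | ⟨ω, hω⟩
    · refine ⟨0, by simp, fun n => by simp [dsum], ?_⟩
      have : invs π ∅ = {∅} := by
        ext A
        simp only [mem_invs, subset_empty, mem_singleton, and_iff_left_iff_imp]
        rintro rfl
        exact hD
      simp [this]
    · have hsub : orb π ω ⊆ D := fun a ha => (hD.mem_iff ha).2 hω
      obtain ⟨M, hM0, hM1, hM2⟩ := ih (D \ orb π ω)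
        (sdiff_ssubset hsub ⟨ω, self_mem_orb π ω⟩) (hD.sdiff (inv_orb π ω))
      refine ⟨(orb π ω).card ::ₘ M, ?_, fun n => ?_, ?_⟩
      · simp only [Multiset.mem_cons, not_or]
        exact ⟨(card_pos.2 ⟨ω, self_mem_orb π ω⟩).ne, hM0⟩
      · rw [← sdiff_union_of_subset hsub, filter_union,
          card_union_of_disjoint (disjoint_filter_filter sdiff_disjoint), hM1]
        simp only [dsum, Multiset.map_cons, Multiset.sum_cons]
        rw [add_comm]
        congr 1
        split_ifs with h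
        · rw [filter_true_of_mem fun a ha => ((isCycleOn_orb π ω).pow_apply_eq ha).2 h]
        · rw [filter_false_of_mem fun a ha h' => h (((isCycleOn_orb π ω).pow_apply_eq ha).1 h')]
          rfl
      · rw [sum_invs_step hD hω _ (x ^ (orb π ω).card), hM2]
        · simp
        · intro A _ hA
          rw [card_union_of_disjoint hA, pow_add]

theorem sum_map_eq_sum_count {A : Type*} [AddCommMonoid A] {M : Multiset ℕ} {s : Finset ℕ}
    (hs : ∀ L ∈ M, L ∈ s) (f : ℕ → A) : (M.map f).sum = ∑ k ∈ s, M.count k • f k := by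
  rw [Finset.sum_multiset_map_count]
  refine sum_subset (fun L hL => hs L (Multiset.mem_toFinset.1 hL)) fun k _ hk => ?_
  rw [Multiset.count_eq_zero.2 (by simpa using hk), zero_smul]

theorem dsum_eq (M : Multiset ℕ) {n : ℕ} (hn : n ≠ 0) :
    dsum M n = ∑ k ∈ n.divisors, M.count k * k := by
  induction M using Multiset.induction_on with
  | empty => simp [dsum]
  | cons a M ih =>
    have : dsum (a ::ₘ M) n = (if a ∣ n then a else 0) + dsum M n := by simp [dsum]
    rw [this, ih]
    simp only [Multiset.count_cons, add_mul, sum_add_distrib, ite_mul, one_mul, zero_mul,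
      sum_ite_eq', Nat.mem_divisors, hn, ne_eq, not_false_eq_true, and_true]
    ring

theorem eq_of_dsum_eq {M M' : Multiset ℕ} (h0 : 0 ∉ M) (h0' : 0 ∉ M')
    (h : ∀ n, n ≠ 0 → dsum M n = dsum M' n) : M = M' := by
  ext n
  induction n using Nat.strong_induction_on with
  | _ n ih =>
    rcases Nat.eq_zero_or_pos n with rfl | hn
    · rw [Multiset.count_eq_zero.2 h0, Multiset.count_eq_zero.2 h0']
    · have h1 := h n hn.ne'
      rw [dsum_eq M hn.ne', dsum_eq M' hn.ne', ← Nat.cons_self_properDivisors hn.ne', sum_cons,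
        sum_cons, sum_congr rfl (g := fun k => M'.count k * k)
          fun k hk => by rw [ih k (Nat.mem_properDivisors.1 hk).2]] at h1
      exact Nat.eq_of_mul_eq_mul_right hn (Nat.add_right_cancel h1)

theorem fixc_eq_dsum (τ : Perm Ω) (n : ℕ) : fixc τ n = dsum τ.partition.parts n := by
  have h1 : (τ.support.filter fun a => (τ ^ n) a = a).card = dsum τ.cycleType n := by
    have hsupp : τ.support = τ.cycleFactorsFinset.biUnion Perm.support := by
      ext a
      simp only [mem_biUnion]
      exact Perm.mem_support_iff_mem_support_of_mem_cycleFactorsFinset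
    rw [hsupp, filter_biUnion, card_biUnion, dsum, Perm.cycleType_def, Multiset.map_map]
    · refine sum_congr rfl fun c hc => ?_
      have hon := Perm.isCycleOn_support_of_mem_cycleFactorsFinset hc
      simp only [Function.comp_apply]
      split_ifs with h
      · rw [filter_true_of_mem fun a ha => (hon.pow_apply_eq ha).2 h]
      · rw [filter_false_of_mem fun a ha h' => h ((hon.pow_apply_eq ha).1 h')]
        rfl
    · intro c hc c' hc' hne
      exact disjoint_filter_filter
        (τ.cycleFactorsFinset_pairwise_disjoint hc hc' hne).disjoint_support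
  have h2 : (τ.supportᶜ.filter fun a => (τ ^ n) a = a).card =
      Fintype.card Ω - τ.support.card := by
    rw [filter_true_of_mem, card_compl]
    intro a ha
    exact Perm.pow_apply_eq_self_of_apply_eq_self (by simpa using ha) n
  rw [fixc, ← union_compl τ.support, filter_union,
    card_union_of_disjoint (disjoint_filter_filter disjoint_compl_right), h1, h2]
  simp [dsum, Perm.parts_partition]

theorem fixc_eq_sum (τ : Perm Ω) (n : ℕ) : fixc τ n =
    ∑ k ∈ Icc 1 (Fintype.card Ω), τ.partition.parts.count k * if k ∣ n then k else 0 := by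
  rw [fixc_eq_dsum, dsum, sum_map_eq_sum_count (s := Icc 1 (Fintype.card Ω))]
  · rfl
  · exact fun L hL => mem_Icc.2 ⟨τ.partition.parts_pos hL, Nat.Partition.le_of_mem_parts hL⟩

theorem card_partition_mul_zee (lam : Nat.Partition (Fintype.card Ω)) :
    (univ.filter fun τ : Perm Ω => τ.partition = lam).card *
      zee (Fintype.card Ω) (fun k => lam.parts.count k) = (Fintype.card Ω).factorial := by
  set m := lam.parts.filter (2 ≤ ·) with hm
  have hparts : lam.parts = m + Multiset.replicate (lam.parts.count 1) 1 := by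
    conv_lhs => rw [← Multiset.filter_add_not (2 ≤ ·) lam.parts]
    congr 1
    rw [← Multiset.filter_eq' lam.parts 1]
    refine Multiset.filter_congr fun a ha => ?_
    have := lam.parts_pos ha
    omega
  have hsum : m.sum + lam.parts.count 1 = Fintype.card Ω := by
    have := lam.parts_sum
    rw [hparts] at this
    simpa using this
  have hfilter : (univ.filter fun τ : Perm Ω => τ.partition = lam) =
      univ.filter fun τ : Perm Ω => τ.cycleType = m := by
    refine filter_congr fun τ _ => ⟨fun h => ?_, fun h => ?_⟩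
    · rw [← Perm.filter_parts_partition_eq_cycleType, h]
    · ext1
      rw [Perm.parts_partition, hparts, ← Perm.sum_cycleType, h]
      congr 2
      omega
  have h := Perm.card_of_cycleType_mul_eq Ω m
  rw [if_pos ⟨by omega, fun a ha => (Multiset.mem_filter.1 ha).2⟩] at h
  rw [hfilter, ← h]
  congr 1
  have hcount : ∀ k, 2 ≤ k → m.count k = lam.parts.count k := fun k hk =>
    Multiset.count_filter_of_pos hk
  have hsub : insert 1 m.toFinset ⊆ insert 1 (Icc 1 (Fintype.card Ω)) := by
    refine insert_subset_insert _ fun k hk => ?_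
    have hk' := (Multiset.mem_filter.1 (Multiset.mem_toFinset.1 hk)).1
    exact mem_Icc.2 ⟨lam.parts_pos hk', Nat.Partition.le_of_mem_parts hk'⟩
  have h1 : zee (Fintype.card Ω) (fun k => lam.parts.count k) =
      ∏ k ∈ insert 1 (Icc 1 (Fintype.card Ω)),
        k ^ lam.parts.count k * (lam.parts.count k).factorial := by
    refine prod_subset (subset_insert _ _) fun k hk hk' => ?_
    have : lam.parts.count k = 0 := by
      refine Multiset.count_eq_zero.2 fun h => hk' ?_
      exact mem_Icc.2 ⟨lam.parts_pos h, Nat.Partition.le_of_mem_parts h⟩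
    simp [this]
  rw [h1, ← prod_subset hsub, prod_insert, prod_mul_distrib, Finset.prod_multiset_count]
  · rw [show Fintype.card Ω - m.sum = lam.parts.count 1 by omega, one_pow, one_mul, mul_assoc]
    congr 2 <;> refine prod_congr rfl fun k hk => ?_ <;>
      rw [hcount k (Multiset.mem_filter.1 (Multiset.mem_toFinset.1 hk)).2]
  · simp [hm]
  · intro k _ hk
    simp only [mem_insert, Multiset.mem_toFinset, not_or] at hk
    have : lam.parts.count k = 0 := by
      refine Multiset.count_eq_zero.2 fun h => hk.2 (Multiset.mem_filter.2 ⟨h, ?_⟩)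
      have := lam.parts_pos h
      omega
    simp [this]

theorem sum_perm_partition [CharZero K] {t : ℕ} (ht : Fintype.card Ω = t)
    (Φ : Multiset ℕ → K) :
    ∑ τ : Perm Ω, Φ τ.partition.parts = t.factorial *
      ∑ lam : Nat.Partition t, ((zee t fun k => lam.parts.count k : ℕ) : K)⁻¹ * Φ lam.parts := by
  subst ht
  rw [← sum_fiberwise (g := fun τ : Perm Ω => τ.partition), mul_sum]
  refine sum_congr rfl fun lam _ => ?_
  rw [sum_congr rfl (g := fun _ => Φ lam.parts) fun τ hτ => by rw [(mem_filter.1 hτ).2],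
    sum_const, nsmul_eq_mul, ← card_partition_mul_zee lam]
  have : ((zee (Fintype.card Ω) fun k => lam.parts.count k : ℕ) : K) ≠ 0 := by
    refine Nat.cast_ne_zero.2 fun h => ?_
    have := card_partition_mul_zee lam
    rw [h, mul_zero] at this
    exact Nat.factorial_ne_zero _ this.symm
  push_cast
  field_simp

/-- `(-1) ^ (number of cycles of σ in A)`. -/
def sgnOn (K : Type*) [Field K] (σ : Perm Ω) (A : Finset Ω) : K :=
  if h : Inv σ A then
    (-1) ^ A.card * ((Perm.sign (σ.subtypePerm h : Perm {a // a ∈ A}) : ℤ) : K) else 0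

theorem sum_sgnOn {σ : Perm Ω} {D : Finset Ω} (hD : Inv σ D) :
    ∑ A ∈ invs σ D, sgnOn K σ A = if D = ∅ then 1 else 0 := by
  split_ifs with h
  · subst h
    have : invs σ ∅ = {∅} := by
      ext A
      simp only [mem_invs, subset_empty, mem_singleton, and_iff_left_iff_imp]
      rintro rfl
      exact hD
    rw [this, sum_singleton, sgnOn, dif_pos hD, Subsingleton.elim (σ.subtypePerm hD) 1]
    simp
  · obtain ⟨ω, hω⟩ := nonempty_iff_ne_empty.2 h
    rw [sum_invs_step hD hω _ (-1)]
    · simp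
    intro A hA hdisj
    have hU := hA.union (inv_orb σ ω)
    rw [sgnOn, sgnOn, dif_pos hA, dif_pos hU, card_union_of_disjoint hdisj,
      ← Perm.sign_ofSubtype, ← Perm.sign_ofSubtype]
    have hmul : Perm.ofSubtype (σ.subtypePerm hU : Perm {a // a ∈ A ∪ orb σ ω}) =
        Perm.ofSubtype (σ.subtypePerm hA : Perm {a // a ∈ A}) * σ.cycleOf ω := by
      ext a
      rw [Perm.mul_apply, Perm.cycleOf_apply]
      by_cases ha : a ∈ orb σ ω
      · rw [if_pos (mem_orb.1 ha), Perm.ofSubtype_subtypePerm_of_mem hU (mem_union_right _ ha),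
          Perm.ofSubtype_subtypePerm_of_not_mem hA
            (disjoint_right.1 hdisj ((inv_orb σ ω a).2 ha))]
      · rw [if_neg (mt mem_orb.2 ha)]
        by_cases haA : a ∈ A
        · rw [Perm.ofSubtype_subtypePerm_of_mem hU (mem_union_left _ haA),
            Perm.ofSubtype_subtypePerm_of_mem hA haA]
        · rw [Perm.ofSubtype_subtypePerm_of_not_mem hU (by simp [ha, haA]),
            Perm.ofSubtype_subtypePerm_of_not_mem hA haA]
    have hsign : (-1 : K) ^ (orb σ ω).card * ((Perm.sign (σ.cycleOf ω) : ℤ) : K) = -1 := by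
      by_cases hfix : σ ω = ω
      · have h1 : orb σ ω = {ω} := by
          ext a
          simp only [mem_orb, mem_singleton]
          exact ⟨fun h => (h.eq_of_left hfix).symm, fun h => h ▸ Perm.SameCycle.rfl⟩
        rw [h1, (Perm.cycleOf_eq_one_iff σ).2 hfix]
        simp
      · have h1 : (σ.cycleOf ω).support = orb σ ω := by
          ext a
          rw [Perm.mem_support_cycleOf_iff' hfix, mem_orb]
        rw [(Perm.isCycle_cycleOf σ hfix).sign, h1]
        simp [← mul_pow]
    rw [hmul, map_mul, pow_add]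
    push_cast
    linear_combination ((-1 : K) ^ A.card *
      ((Perm.sign (Perm.ofSubtype (σ.subtypePerm hA : Perm {a // a ∈ A})) : ℤ) : K)) * hsign

end Pool.Agent.MP_5f0aae_co

end

section

/-! Logarithmic derivatives of the figure series. -/

namespace Pool.Agent.MP_5f0aae_co

open Finset PowerSeries

section PairSum

def pairSum {A : Type*} [AddCommMonoid A] (t : ℕ) (c : ℕ → ℕ) (F G L : ℕ → A) : A :=
  ∑ k ∈ Icc 1 t,
    (c k • (((k - 1) / 2) • F k + (if Even k then G (k / 2) else 0) + L k) +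
      (k * (c k).choose 2) • F k + ∑ r ∈ Ico 1 k, (Nat.gcd r k * c r * c k) • F (Nat.lcm r k))

theorem rel_pairTerm {M A : Type*} [CommMonoid M] [AddCommMonoid A] (R : M → A → Prop)
    (h1 : R 1 0) (hmul : ∀ a a' b b', R a b → R a' b' → R (a * a') (b + b'))
    (t : ℕ) (c : ℕ → ℕ) {F G L : ℕ → M} {F' G' L' : ℕ → A} (hF : ∀ k, 1 ≤ k → R (F k) (F' k))
    (hG : ∀ k, 1 ≤ k → R (G k) (G' k)) (hL : ∀ k, 1 ≤ k → R (L k) (L' k)) :
    R (pairTerm t c F G L) (pairSum t c F' G' L') := by
  have hpow : ∀ a b (n : ℕ), R a b → R (a ^ n) (n • b) := by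
    intro a b n h
    induction n with
    | zero => simpa using h1
    | succ n ih => rw [pow_succ, succ_nsmul]; exact hmul _ _ _ _ ih h
  have hprod : ∀ (s : Finset ℕ) (f : ℕ → M) (g : ℕ → A), (∀ i ∈ s, R (f i) (g i)) →
      R (∏ i ∈ s, f i) (∑ i ∈ s, g i) := by
    intro s f g h
    induction s using Finset.induction_on with
    | empty => simpa using h1
    | insert a s ha ih =>
      rw [prod_insert ha, sum_insert ha]
      exact hmul _ _ _ _ (h a (mem_insert_self _ _)) (ih fun i hi => h i (mem_insert_of_mem hi))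
  refine hprod _ _ _ fun k hk => ?_
  have hk1 := (mem_Icc.1 hk).1
  refine hmul _ _ _ _ (hmul _ _ _ _ (hpow _ _ _ (hmul _ _ _ _ (hmul _ _ _ _
    (hpow _ _ _ (hF k hk1)) ?_) (hL k hk1))) (hpow _ _ _ (hF k hk1))) (hprod _ _ _ fun r hr => ?_)
  · split_ifs with h
    · obtain ⟨a, rfl⟩ := h
      exact hG _ (by omega)
    · exact h1
  · exact hpow _ _ _ (hF _ (Nat.lcm_pos (mem_Ico.1 hr).1 hk1))

theorem map_pairSum {A B : Type*} [AddCommMonoid A] [AddCommMonoid B] (φ : A →+ B)
    (t : ℕ) (c : ℕ → ℕ) (F G L : ℕ → A) :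
    φ (pairSum t c F G L) = pairSum t c (fun k => φ (F k)) (fun k => φ (G k)) fun k => φ (L k) := by
  simp only [pairSum, map_sum, map_add, map_nsmul, apply_ite φ, map_zero]

theorem map_pairTerm {A B : Type*} [CommMonoid A] [CommMonoid B] (φ : A →* B)
    (t : ℕ) (c : ℕ → ℕ) (F G L : ℕ → A) :
    φ (pairTerm t c F G L) =
      pairTerm t c (fun k => φ (F k)) (fun k => φ (G k)) fun k => φ (L k) := by
  simp only [pairTerm, map_prod, map_mul, map_pow, apply_ite φ, map_one]

theorem pairTerm_mul {M : Type*} [CommMonoid M] (t : ℕ) (c : ℕ → ℕ) (F G L F' G' L' : ℕ → M) :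
    pairTerm t c (fun k => F k * F' k) (fun k => G k * G' k) (fun k => L k * L' k) =
      pairTerm t c F G L * pairTerm t c F' G' L' := by
  unfold pairTerm
  rw [← prod_mul_distrib]
  refine prod_congr rfl fun k _ => ?_
  simp only [mul_pow, prod_mul_distrib]
  split_ifs <;> simp only [mul_pow, one_pow] <;> ac_rfl

variable {R : Type*} [CommRing R]

/-- `k` if `k ∣ n`, else `0`. -/
def dv (R : Type*) [CommRing R] (n k : ℕ) : R := if k ∣ n then k else 0

theorem gcd_mul_dv (n r k : ℕ) : (Nat.gcd r k : R) * dv R n (Nat.lcm r k) = dv R n r * dv R n k := by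
  unfold dv
  by_cases hr : r ∣ n <;> by_cases hk : k ∣ n <;> simp only [Nat.lcm_dvd_iff, hr, hk] <;> simp
  rw [← Nat.cast_mul, Nat.gcd_mul_lcm, Nat.cast_mul]

theorem cast_mul_dv (n k : ℕ) : (k : R) * dv R n k = dv R n k ^ 2 := by
  unfold dv
  split_ifs <;> ring

theorem half_dv {ε : R} (hε : ε ^ 2 = 1) (n : ℕ) {k : ℕ} (hk : 1 ≤ k) :
    2 * ((((k - 1) / 2 : ℕ) : R) * dv R n k +
      if Even k then dv R n (k / 2) * ε ^ (n / (k / 2)) else 0) =
      k * dv R n k - dv R n k + ε * (dv R (2 * n) k - dv R n k) := by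
  rcases Nat.even_or_odd' k with ⟨h, rfl | rfl⟩
  · obtain ⟨h, rfl⟩ : ∃ h', h = h' + 1 := ⟨h - 1, by omega⟩
    rw [if_pos (even_two_mul _), show (2 * (h + 1) - 1) / 2 = h by omega,
      show 2 * (h + 1) / 2 = h + 1 by omega]
    unfold dv
    simp only [Nat.mul_dvd_mul_iff_left two_pos]
    by_cases h1 : h + 1 ∣ n
    · obtain ⟨a, rfl⟩ := h1
      rw [Nat.mul_div_cancel_left _ (Nat.succ_pos h), mul_comm 2 (h + 1)]
      simp only [Nat.mul_dvd_mul_iff_left (Nat.succ_pos h), dvd_mul_right, if_true]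
      rcases Nat.even_or_odd' a with ⟨b, rfl | rfl⟩
      · rw [if_pos (dvd_mul_right _ _), pow_mul, hε]
        push_cast
        ring
      · rw [if_neg (by omega), pow_succ, pow_mul, hε]
        push_cast
        ring
    · have h2 : ¬ 2 * (h + 1) ∣ n := fun h2 => h1 ((dvd_mul_left _ _).trans h2)
      simp [h1, h2]
  · have h1 : 2 * h + 1 ∣ 2 * n ↔ 2 * h + 1 ∣ n :=
      Nat.Coprime.dvd_mul_left (by simp)
    rw [if_neg (by simp), show (2 * h + 1 - 1) / 2 = h by omega]
    simp only [dv, h1]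
    push_cast
    ring

theorem two_mul_pairSum {ε : R} (hε : ε ^ 2 = 1) (l : R) (n t : ℕ) (c : ℕ → ℕ) :
    2 * pairSum t c (dv R n) (fun k => dv R n k * ε ^ (n / k)) (fun k => dv R n k * l) =
      (∑ k ∈ Icc 1 t, c k * dv R n k) ^ 2 - ∑ k ∈ Icc 1 t, c k * dv R n k +
        ε * (∑ k ∈ Icc 1 t, c k * dv R (2 * n) k - ∑ k ∈ Icc 1 t, c k * dv R n k) +
        2 * l * ∑ k ∈ Icc 1 t, c k * dv R n k := by
  unfold pairSum
  induction t with
  | zero => simp
  | succ t ih =>
    simp only [sum_Icc_succ_top (show 1 ≤ t + 1 by omega)]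
    rw [mul_add, ih]
    have h1 : ∑ r ∈ Ico 1 (t + 1), (Nat.gcd r (t + 1) * c r * c (t + 1)) •
        dv R n (Nat.lcm r (t + 1)) =
        (∑ k ∈ Icc 1 t, c k * dv R n k) * (c (t + 1) * dv R n (t + 1)) := by
      rw [sum_mul, ← Ico_add_one_right_eq_Icc]
      refine sum_congr rfl fun r _ => ?_
      have := gcd_mul_dv (R := R) n r (t + 1)
      rw [nsmul_eq_mul]
      push_cast at this ⊢
      linear_combination (c r * c (t + 1) : R) * this
    have h2 := half_dv hε n (show 1 ≤ t + 1 by omega)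
    have h3 := cast_mul_dv (R := R) n (t + 1)
    have h4 : (2 : R) * ((c (t + 1)).choose 2 : ℕ) = c (t + 1) * (c (t + 1) - 1) := by
      rcases c (t + 1) with _ | a
      · simp
      · have := Nat.add_one_mul_choose_eq a 1
        rw [Nat.choose_one_right] at this
        have h5 := congrArg (Nat.cast : ℕ → R) this
        push_cast at h5 ⊢
        linear_combination -h5
    rw [h1]
    simp only [nsmul_eq_mul, Nat.cast_mul]
    linear_combination (c (t + 1) : R) * h2 + ((t + 1 : ℕ) : R) * dv R n (t + 1) * h4 +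
      (c (t + 1) : R) ^ 2 * h3

end PairSum

variable {K : Type*} [Field K]

/-- `P` has constant term one and `X P' / P` has the coefficients `l` up to degree `N`. -/
def LD (N : ℕ) (P : K⟦X⟧) (l : ℕ → K) : Prop :=
  constantCoeff P = 1 ∧
    ∃ L : K⟦X⟧, X * d⁄dX K P = L * P ∧ ∀ m, 1 ≤ m → m ≤ N → coeff m L = l m

variable {N : ℕ}

theorem LD.one : LD N (1 : K⟦X⟧) 0 := ⟨by simp, 0, by simp, by simp⟩

theorem LD.mul {P Q : K⟦X⟧} {l l' : ℕ → K} (h : LD N P l) (h' : LD N Q l') :
    LD N (P * Q) (l + l') := by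
  obtain ⟨h0, L, hL, hl⟩ := h
  obtain ⟨h0', L', hL', hl'⟩ := h'
  refine ⟨by simp [h0, h0'], L + L', ?_, fun m h1 h2 => by simp [hl m h1 h2, hl' m h1 h2]⟩
  rw [Derivation.leibniz, smul_eq_mul, smul_eq_mul]
  linear_combination P * hL' + Q * hL

theorem LD.congr {P : K⟦X⟧} {l l' : ℕ → K} (h : LD N P l)
    (hl : ∀ m, 1 ≤ m → m ≤ N → l m = l' m) : LD N P l' := by
  obtain ⟨h0, L, hL, hl'⟩ := h
  exact ⟨h0, L, hL, fun m h1 h2 => (hl' m h1 h2).trans (hl m h1 h2)⟩

theorem LD.inv {P : K⟦X⟧} {l : ℕ → K} (h : LD N P l) : LD N P⁻¹ (-l) := by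
  obtain ⟨h0, L, hL, hl⟩ := h
  refine ⟨by simp [h0], -L, ?_, fun m h1 h2 => by simp [hl m h1 h2]⟩
  have h1 := PowerSeries.mul_inv_cancel P (by rw [h0]; exact one_ne_zero)
  rw [derivative_inv']
  linear_combination (-P⁻¹ ^ 2) * hL - L * P⁻¹ * h1

theorem LD.prod {s : Finset ℕ} {f : ℕ → K⟦X⟧} {g : ℕ → ℕ → K} (h : ∀ i ∈ s, LD N (f i) (g i)) :
    LD N (∏ i ∈ s, f i) (∑ i ∈ s, g i) := by
  induction s using Finset.induction_on with
  | empty => simpa using LD.one
  | insert a s ha ih =>
    rw [prod_insert ha, sum_insert ha]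
    exact (h a (mem_insert_self _ _)).mul (ih fun i hi => h i (mem_insert_of_mem hi))

def geo (c : K) (b m : ℕ) : K := if b ∣ m then b * c ^ (m / b) else 0

theorem LD.one_sub (c : K) {b : ℕ} (hb : 1 ≤ b) : LD N (1 - C c * X ^ b) (-geo c b) := by
  let g : K⟦X⟧ := PowerSeries.mk fun m => if b ∣ m then c ^ (m / b) else 0
  have hg : (1 - C c * X ^ b) * g = 1 := by
    ext m
    rw [sub_mul, one_mul, map_sub, mul_assoc, coeff_C_mul, coeff_X_pow_mul', coeff_one]
    simp only [g, coeff_mk]
    by_cases hm : b ≤ m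
    · obtain ⟨k, rfl⟩ := Nat.exists_eq_add_of_le hm
      rw [if_pos hm, if_neg (show ¬ b + k = 0 by omega), Nat.add_sub_cancel_left,
        Nat.add_div_left _ hb]
      simp only [Nat.dvd_add_right (dvd_refl b)]
      split_ifs <;> ring
    · rw [if_neg hm]
      rcases Nat.eq_zero_or_pos m with rfl | hm0
      · simp
      · rw [if_neg (Nat.not_dvd_of_pos_of_lt hm0 (by omega)), if_neg hm0.ne']
        simp
  refine ⟨by simp [show b ≠ 0 by omega], -(C (b : K) * (g - 1)), ?_, fun m h1 _ => ?_⟩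
  · obtain ⟨b, rfl⟩ : ∃ b', b = b' + 1 := ⟨b - 1, by omega⟩
    simp only [map_sub, derivative_one, Derivation.leibniz, derivative_C, derivative_pow,
      derivative_X, smul_eq_mul, map_natCast, Nat.add_sub_cancel]
    linear_combination ((b + 1 : ℕ) : K⟦X⟧) * hg
  · rw [map_neg, coeff_C_mul, map_sub, coeff_one, if_neg (by omega)]
    simp only [g, coeff_mk, geo, Pi.neg_apply]
    split_ifs <;> simp

theorem LD.coeff_eq [CharZero K] {P : K⟦X⟧} {l : ℕ → K} (h : LD N P l) {a : ℕ → K} (h0 : a 0 = 1)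
    (ha : ∀ s ≤ N, s * a s = ∑ m ∈ Icc 1 s, l m * a (s - m)) : ∀ s ≤ N, coeff s P = a s := by
  obtain ⟨hP, L, hL, hl⟩ := h
  have hL0 : coeff 0 L = 0 := by
    have := congrArg constantCoeff hL
    simpa [hP] using this.symm
  intro s
  induction s using Nat.strong_induction_on with
  | _ s ih =>
    intro hs
    rcases s with _ | s
    · simp [hP, h0]
    · have h1 := congrArg (coeff (s + 1)) hL
      rw [coeff_succ_X_mul, coeff_derivative, coeff_mul,
        Nat.sum_antidiagonal_eq_sum_range_succ (fun i j => coeff i L * coeff j P),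
        range_eq_Ico, sum_eq_sum_Ico_succ_bot (by omega), hL0, zero_mul, zero_add,
        Nat.succ_eq_add_one, Ico_add_one_right_eq_Icc, zero_add] at h1
      have h2 := ha (s + 1) hs
      rw [← sum_congr rfl fun m hm => ?_, ← h1] at h2
      · have h3 : ((s : K) + 1) ≠ 0 := Nat.cast_add_one_ne_zero s
        apply mul_left_cancel₀ h3
        push_cast at h2
        linear_combination -h2
      · rw [mem_Icc] at hm
        rw [hl m hm.1 (by omega), ih _ (by omega) (by omega)]

theorem sum_Icc_eq_sum_divisors {m : ℕ} (h1 : 1 ≤ m) (hm : m ≤ N) (f : ℕ → K)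
    (hf : ∀ j, ¬ j ∣ m → f j = 0) : ∑ j ∈ Icc 1 N, f j = ∑ j ∈ m.divisors, f j := by
  symm
  refine sum_subset (fun j hj => ?_) fun j _ hj => hf j fun h => hj ?_
  · exact mem_Icc.2 ⟨Nat.pos_of_mem_divisors hj, (Nat.divisor_le hj).trans hm⟩
  · exact Nat.mem_divisors.2 ⟨h, by omega⟩

theorem geo_mon (e x : K) {k j m : ℕ} (hk : 1 ≤ k) (hj : j ∈ m.divisors) :
    geo (e * x ^ (k * (j + 1))) (k * j) m =
      j * x ^ m * x ^ (m / j) * (dv K (m / j) k * e ^ (m / j / k)) := by
  have hj0 := Nat.pos_of_mem_divisors hj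
  obtain ⟨n, rfl⟩ := Nat.dvd_of_mem_divisors hj
  rw [Nat.mul_div_cancel_left _ hj0, geo, dv, mul_comm k j]
  simp only [Nat.mul_dvd_mul_iff_left hj0]
  split_ifs with h
  · obtain ⟨r, rfl⟩ := h
    rw [← mul_assoc, Nat.mul_div_cancel_left _ (Nat.mul_pos hj0 hk), Nat.mul_div_cancel_left _ hk]
    push_cast
    ring
  · simp

theorem geo_eq_zero (c : K) {k j m : ℕ} (h : ¬ j ∣ m) : geo c (k * j) m = 0 :=
  if_neg fun h' => h ((dvd_mul_left _ _).trans h')

/-- The part of the figure series for pairs that counts paths. -/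
noncomputable def pathFig (e x : K) (N k : ℕ) : K⟦X⟧ :=
  ∏ j ∈ Icc 1 N, if Odd j then 1 - mon e x k j else (1 - mon e x k j)⁻¹

/-- Summation over the length of the paths. -/
def overLen (x : K) (m : ℕ) : (ℕ → K) →+ K where
  toFun f := ∑ j ∈ m.divisors, (-1) ^ j * (j * x ^ m * x ^ (m / j)) * f j
  map_zero' := by simp
  map_add' f g := by simp [mul_add, sum_add_distrib]

theorem overLen_apply (x : K) (m : ℕ) (f : ℕ → K) :
    overLen x m f = ∑ j ∈ m.divisors, (-1) ^ j * (j * x ^ m * x ^ (m / j)) * f j := rfl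

theorem ld_pathFig (e x : K) {k : ℕ} (hk : 1 ≤ k) : LD N (pathFig e x N k)
    fun m => overLen x m fun j => dv K (m / j) k * (e ^ (j / 2)) ^ (m / j / k) := by
  refine (LD.prod (g := fun j m => (-1) ^ j * geo (e ^ (j / 2) * x ^ (k * (j + 1))) (k * j) m)
    fun j hj => ?_).congr fun m h1 hm => ?_
  · have hb : 1 ≤ k * j := Nat.mul_pos hk (mem_Icc.1 hj).1
    split_ifs with h
    · exact (LD.one_sub _ hb).congr fun m _ _ => by simp [h.neg_one_pow]
    · exact (LD.one_sub _ hb).inv.congr fun m _ _ => by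
        simp [(Nat.not_odd_iff_even.1 h).neg_one_pow]
  · rw [Finset.sum_apply, sum_Icc_eq_sum_divisors h1 hm _ fun j hj => by simp [geo_eq_zero _ hj],
      overLen_apply]
    refine sum_congr rfl fun j hj => ?_
    rw [geo_mon _ _ hk hj]
    ring

/-- One if loops with `j` points survive. -/
def loopOk (K : Type*) [Field K] (j : ℕ) : K := if 2 ≤ j ∧ (j % 4 = 1 ∨ j % 4 = 0) then 1 else 0

theorem ld_loopFig (x : K) {k : ℕ} (hk : 1 ≤ k) : LD N (loopFig x N k)
    fun m => overLen x m fun j => dv K (m / j) k * loopOk K j := by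
  refine (LD.prod (g := fun j m =>
    (-1) ^ j * geo (1 ^ (j / 2) * x ^ (k * (j + 1))) (k * j) m * loopOk K j)
    fun j hj => ?_).congr fun m h1 hm => ?_
  · have hj2 := (mem_Icc.1 hj).1
    have hb : 1 ≤ k * j := Nat.mul_pos hk (by omega)
    split_ifs with h h'
    · exact (LD.one_sub _ hb).congr fun m _ _ => by
        simp [(show Odd j from Nat.odd_iff.2 (by omega)).neg_one_pow, loopOk, hj2, h]
    · exact (LD.one_sub _ hb).inv.congr fun m _ _ => by
        simp [(show Even j from Nat.even_iff.2 (by omega)).neg_one_pow, loopOk, hj2, h']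
    · exact LD.one.congr fun m _ _ => by simp [loopOk, h, h']
  · rw [Finset.sum_apply, sum_subset (Icc_subset_Icc_left (show 1 ≤ 2 by omega)),
      sum_Icc_eq_sum_divisors h1 hm _ fun j hj => by simp [geo_eq_zero _ hj], overLen_apply]
    · refine sum_congr rfl fun j hj => ?_
      rw [geo_mon _ _ hk hj]
      simp only [one_pow]
      ring
    · intro j hj hj'
      simp only [mem_Icc] at hj hj'
      simp [loopOk, show ¬ 2 ≤ j by omega]

theorem ld_cycFig (x : K) : LD N (cycFig x N) fun m =>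
    ∑ j ∈ m.divisors, if 3 ≤ j ∧ j % 4 = 1 then -(j * x ^ m) else 0 := by
  refine (LD.prod (g := fun j m => if 3 ≤ j ∧ j % 4 = 1 then -geo (x ^ j) j m else 0)
    fun j hj => ?_).congr fun m h1 hm => ?_
  · have hj2 := (mem_Icc.1 hj).1
    split_ifs with h h' h'
    · exact LD.one_sub _ (by omega)
    · exact absurd ⟨hj2, h⟩ h'
    · exact absurd h'.2 h
    · exact LD.one
  · rw [Finset.sum_apply, sum_subset (Icc_subset_Icc_left (show 1 ≤ 3 by omega)),
      sum_Icc_eq_sum_divisors h1 hm _ fun j hj => by simp [geo, hj]]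
    · refine sum_congr rfl fun j hj => ?_
      rw [geo, if_pos (Nat.dvd_of_mem_divisors hj), ← pow_mul,
        Nat.mul_div_cancel' (Nat.dvd_of_mem_divisors hj)]
    · intro j hj hj'
      simp only [mem_Icc] at hj hj'
      simp [show ¬ 3 ≤ j by omega]

variable {T : Type} [DecidableEq T] [Fintype T]

theorem fixc_cast (R : Type*) [CommRing R] (τ : Equiv.Perm T) (n : ℕ) : (fixc τ n : R) =
    ∑ k ∈ Icc 1 (Fintype.card T), (τ.partition.parts.count k : R) * dv R n k := by
  rw [fixc_eq_sum]
  push_cast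
  rfl

theorem coeff_Spart [CharZero K] (x : K) (τ : Equiv.Perm T) {s : ℕ} (hs : s ≤ N) :
    coeff s (cycFig x N * pairTerm (Fintype.card T) (fun k => τ.partition.parts.count k)
      (pathFig 1 x N) (pathFig (-1) x N) (loopFig x N)) = aCoef x τ s := by
  have h1 := (ld_cycFig (N := N) x).mul (rel_pairTerm (LD N) LD.one (fun _ _ _ _ => LD.mul)
    (Fintype.card T) (fun k => τ.partition.parts.count k) (fun k hk => ld_pathFig 1 x hk)
    (fun k hk => ld_pathFig (-1) x hk) (fun k hk => ld_loopFig x hk))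
  have h2 := h1.congr (l' := fun m => kCoef x τ m / 2) fun m _ _ => by
    have h3 := map_pairSum (Pi.evalAddMonoidHom (fun _ : ℕ => K) m) (Fintype.card T)
      (fun k => τ.partition.parts.count k)
      (fun k m => overLen x m fun j => dv K (m / j) k * ((1 : K) ^ (j / 2)) ^ (m / j / k))
      (fun k m => overLen x m fun j => dv K (m / j) k * ((-1 : K) ^ (j / 2)) ^ (m / j / k))
      (fun k m => overLen x m fun j => dv K (m / j) k * loopOk K j)
    simp only [Pi.evalAddMonoidHom_apply] at h3
    rw [Pi.add_apply, h3, ← map_pairSum, overLen_apply, ← sum_add_distrib, kCoef, sum_div]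
    refine sum_congr rfl fun j hj => ?_
    have hj0 := Nat.pos_of_mem_divisors hj
    have h4 := map_pairSum (Pi.evalAddMonoidHom (fun _ : ℕ => K) j) (Fintype.card T)
      (fun k => τ.partition.parts.count k)
      (fun k j => dv K (m / j) k * ((1 : K) ^ (j / 2)) ^ (m / j / k))
      (fun k j => dv K (m / j) k * ((-1 : K) ^ (j / 2)) ^ (m / j / k))
      (fun k j => dv K (m / j) k * loopOk K j)
    simp only [Pi.evalAddMonoidHom_apply] at h4
    rw [h4]
    simp only [one_pow, mul_one]
    have h5 := two_mul_pairSum (R := K) (ε := (-1) ^ (j / 2))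
      (by rw [← pow_mul, mul_comm, pow_mul]; simp) (loopOk K j) (m / j) (Fintype.card T)
      fun k => τ.partition.parts.count k
    simp only [← fixc_cast] at h5
    have h6 : (if 3 ≤ j ∧ j % 4 = 1 then -(j * x ^ m) else 0) =
        (-1) ^ j * x ^ m * kC K j / 2 := by
      unfold kC
      by_cases h3 : 3 ≤ j <;> by_cases h4 : j % 4 = 1 <;> simp [h3, h4]
      rw [(show Odd j from Nat.odd_iff.2 (by omega)).neg_one_pow]
      ring
    have h7 : (if j = 1 then (fixc τ (m / j) : K) else 0) * (1 + (-1) ^ (j / 2)) =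
        (1 + (-1) ^ (j / 2) - 2 * loopOk K j) * fixc τ (m / j) := by
      unfold loopOk
      by_cases h1 : j = 1
      · subst h1
        simp [mul_comm]
      · rw [if_neg h1]
        split_ifs with h
        · rw [(show Even (j / 2) from Nat.even_iff.2 (by omega)).neg_one_pow]
          ring
        · rw [(show Odd (j / 2) from Nat.odd_iff.2 (by omega)).neg_one_pow]
          ring
    rw [h6, kP]
    linear_combination ((-1) ^ j * (j * x ^ m * x ^ (m / j)) / 2) * h5 +
      ((-1) ^ j * (j * x ^ m * x ^ (m / j)) / 2) * h7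
  refine h2.coeff_eq (by simp [aCoef, Wn_zero]) (fun s _ => ?_) s hs
  have := aCoef_rec x τ s
  simp only [div_mul_eq_mul_div, ← sum_div]
  linear_combination this / 2

end Pool.Agent.MP_5f0aae_co

end

section

/-! From graphs to the structures: Burnside, invariant graphs, splitting off a set of points. -/

namespace Pool.Agent.MP_5f0aae_co

open Finset Equiv Function Sum

variable {V W T S : Type} {K : Type*} [Field K]

def GInv (σ : Perm V) (G : SimpleGraph V) : Prop := ∀ u v, G.Adj (σ u) (σ v) ↔ G.Adj u v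

noncomputable def ne (G : SimpleGraph V) : ℕ := G.edgeSet.ncard

noncomputable def dg (G : SimpleGraph V) (v : V) : ℕ := (G.neighborSet v).ncard

theorem ne_comap (ε : V ≃ W) (G : SimpleGraph W) : ne (G.comap ε) = ne G :=
  Set.ncard_congr' (SimpleGraph.Iso.comap ε G).mapEdgeSet

theorem dg_comap (ε : V ≃ W) (G : SimpleGraph W) (v : V) : dg (G.comap ε) v = dg G (ε v) :=
  Set.ncard_congr' ((SimpleGraph.Iso.comap ε G).mapNeighborSet v)

theorem GInv.comap_eq {σ : Perm V} {G : SimpleGraph V} : G.comap σ = G ↔ GInv σ G := by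
  simp [GInv, SimpleGraph.ext_iff, funext_iff]

theorem GInv.dg {σ : Perm V} {G : SimpleGraph V} (h : GInv σ G) (v : V) :
    dg G (σ v) = dg G v := by
  rw [← dg_comap, GInv.comap_eq.2 h]

open Classical in
theorem dg_eq_sum [Fintype V] (G : SimpleGraph V) (v : V) :
    dg G v = ∑ w, if G.Adj v w then 1 else 0 := by
  rw [dg, ← card_filter, ← Set.ncard_coe_finset]
  congr 1
  ext w
  simp

theorem two_mul_ne [Fintype V] (G : SimpleGraph V) : 2 * ne G = ∑ v, dg G v := by
  classical
  rw [ne, ← SimpleGraph.coe_edgeFinset, Set.ncard_coe_finset,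
    ← SimpleGraph.sum_degrees_eq_twice_card_edges]
  refine sum_congr rfl fun v _ => ?_
  rw [dg, ← SimpleGraph.card_neighborFinset_eq_degree, ← Set.ncard_coe_finset,
    SimpleGraph.coe_neighborFinset]

section Burnside

/-- Labelled graphs without points of degree two. -/
def HI (p q : ℕ) : Type :=
  {G : SimpleGraph (Fin p) // (∀ v, (G.neighborSet v).ncard ≠ 2) ∧ G.edgeSet.ncard = q}

instance (p q : ℕ) : MulAction (Perm (Fin p)) (HI p q) where
  smul σ G := ⟨G.1.comap σ.symm, fun v => by
    have := dg_comap σ.symm G.1 v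
    unfold dg at this
    rw [this]
    exact G.2.1 _, (ne_comap σ.symm G.1).trans G.2.2⟩
  one_smul _ := rfl
  mul_smul _ _ _ := rfl

theorem HI.smul_val {p q : ℕ} (σ : Perm (Fin p)) (G : HI p q) :
    (σ • G).1 = G.1.comap σ.symm := rfl

open Classical in
theorem burnside (p q : ℕ) : hcount p q * p.factorial = ∑ σ : Perm (Fin p),
    (univ.filter fun G : SimpleGraph (Fin p) =>
      (GInv σ G ∧ ∀ v, dg G v ≠ 2) ∧ ne G = q).card := by
  have : Finite (HI p q) := Subtype.finite
  let _ := Fintype.ofFinite (HI p q)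
  let _ := Fintype.ofFinite (MulAction.orbitRel.Quotient (Perm (Fin p)) (HI p q))
  have h := MulAction.sum_card_fixedBy_eq_card_orbits_mul_card_group (Perm (Fin p)) (HI p q)
  rw [Fintype.card_perm, Fintype.card_fin] at h
  have h1 : hcount p q =
      Fintype.card (MulAction.orbitRel.Quotient (Perm (Fin p)) (HI p q)) := by
    rw [← Nat.card_eq_fintype_card]
    refine Nat.card_congr (Quot.congrRight fun G H => ?_)
    rw [MulAction.orbitRel_apply]
    constructor
    · rintro ⟨φ⟩
      refine ⟨φ.toEquiv.symm, Subtype.ext ?_⟩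
      ext u v
      exact φ.map_rel_iff
    · rintro ⟨σ, rfl⟩
      exact ⟨SimpleGraph.Iso.comap σ.symm H.1⟩
  rw [h1, ← h]
  refine sum_congr rfl fun σ _ => ?_
  rw [← Fintype.card_subtype]
  have key : ∀ G : SimpleGraph (Fin p), G.comap σ.symm = G ↔ GInv σ G := by
    intro G
    rw [GInv.comap_eq]
    refine ⟨fun h u v => ?_, fun h u v => ?_⟩
    · simpa using (h (σ u) (σ v)).symm
    · simpa using (h (σ.symm u) (σ.symm v)).symm
  exact Fintype.card_congr
    ⟨fun G => ⟨G.1.1, ⟨(key _).1 (congrArg Subtype.val G.2), G.1.2.1⟩, G.1.2.2⟩,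
      fun G => ⟨⟨G.1, G.2.1.2, G.2.2⟩, Subtype.ext ((key _).2 G.2.1.1)⟩,
      fun _ => rfl, fun _ => rfl⟩

open Classical in
theorem burnside_weighted (p : ℕ) (x : K) :
    (p.factorial : K) * ∑ q ∈ range (p.choose 2 + 1), (hcount p q : K) * x ^ q =
      ∑ σ : Perm (Fin p), ∑ G ∈ univ.filter (fun G : SimpleGraph (Fin p) =>
        GInv σ G ∧ ∀ v, dg G v ≠ 2), x ^ ne G := by
  have h1 : ∀ σ : Perm (Fin p), ∑ G ∈ univ.filter (fun G : SimpleGraph (Fin p) =>
        GInv σ G ∧ ∀ v, dg G v ≠ 2), x ^ ne G =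
      ∑ q ∈ range (p.choose 2 + 1), ((univ.filter fun G : SimpleGraph (Fin p) =>
        (GInv σ G ∧ ∀ v, dg G v ≠ 2) ∧ ne G = q).card : K) * x ^ q := by
    intro σ
    rw [← sum_fiberwise_of_maps_to (g := ne) (t := range (p.choose 2 + 1))]
    · refine sum_congr rfl fun q _ => ?_
      rw [filter_filter, sum_congr rfl (g := fun _ => x ^ q), sum_const, nsmul_eq_mul]
      intro G hG
      rw [(mem_filter.1 hG).2.2]
    · intro G _
      have := G.card_edgeFinset_le_card_choose_two
      rw [Fintype.card_fin] at this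
      rw [mem_range, ne, ← SimpleGraph.coe_edgeFinset, Set.ncard_coe_finset]
      omega
  simp only [h1]
  rw [sum_comm, mul_sum]
  refine sum_congr rfl fun q _ => ?_
  rw [← sum_mul, ← Nat.cast_sum, ← burnside]
  push_cast
  ring

end Burnside

section Pairs

variable [Fintype T] [DecidableEq T]

def sym2Perm (τ : Perm T) : Perm (Sym2 T) where
  toFun := Sym2.map τ
  invFun := Sym2.map τ.symm
  left_inv z := by simp [Sym2.map_map]
  right_inv z := by simp [Sym2.map_map]

omit [Fintype T] [DecidableEq T] in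
theorem sym2Perm_pow (τ : Perm T) (n : ℕ) (a b : T) :
    (sym2Perm τ ^ n) s(a, b) = s((τ ^ n) a, (τ ^ n) b) := by
  induction n with
  | zero => simp
  | succ n ih =>
    rw [pow_succ', pow_succ', Perm.mul_apply, ih]
    rfl

def offDiag (T : Type) [Fintype T] [DecidableEq T] : Finset (Sym2 T) :=
  univ.filter fun z => ¬ z.IsDiag

theorem inv_offDiag (τ : Perm T) : Inv (sym2Perm τ) (offDiag T) := by
  intro z
  induction z using Sym2.ind with
  | _ a b => simp [offDiag, sym2Perm]

theorem card_fix_offDiag (τ : Perm T) (n : ℕ) :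
    2 * (((offDiag T).filter fun z => (sym2Perm τ ^ n) z = z).card : ℚ) =
      (fixc τ n : ℚ) ^ 2 - fixc τ n + (fixc τ (2 * n) - fixc τ n) := by
  have h := sum_validPairs (K := ℚ) τ n 0 1
  simp only [if_true, one_mul] at h
  rw [← h]
  have h1 : ((validPairs T 0).filter fun y => (sym2Perm τ ^ n) s(y.1, y.2) = s(y.1, y.2)).card =
      2 * ((offDiag T).filter fun z => (sym2Perm τ ^ n) z = z).card := by
    rw [card_eq_sum_card_fiberwise (f := fun y : T × T => s(y.1, y.2))
      (t := (offDiag T).filter fun z => (sym2Perm τ ^ n) z = z), mul_comm, ← smul_eq_mul,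
      ← sum_const]
    · refine sum_congr rfl fun z hz => ?_
      induction z using Sym2.ind with
      | _ a b =>
        simp only [offDiag, mem_filter, mem_univ, true_and, Sym2.mk_isDiag_iff] at hz
        rw [← card_pair (show (a, b) ≠ (b, a) from fun h => hz.1 (Prod.mk.inj h).1)]
        congr 1
        ext ⟨c, d⟩
        simp only [mem_filter, mem_validPairs, mem_insert, mem_singleton, Prod.mk.injEq]
        constructor
        · rintro ⟨-, h⟩
          exact Sym2.eq_iff.1 h
        · rintro (⟨rfl, rfl⟩ | ⟨rfl, rfl⟩)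
          · exact ⟨⟨fun _ => hz.1, hz.2⟩, rfl⟩
          · exact ⟨⟨fun _ => Ne.symm hz.1, by rw [Sym2.eq_swap]; exact hz.2⟩, Sym2.eq_swap⟩
    · intro y hy
      simp only [coe_filter, Set.mem_ofPred_eq, mem_validPairs, offDiag, mem_filter, mem_univ,
        true_and, Sym2.mk_isDiag_iff] at hy ⊢
      exact ⟨hy.1 trivial, hy.2⟩
  have h2 := congrArg (Nat.cast : ℕ → ℚ) h1
  rw [Nat.cast_mul, Nat.cast_ofNat] at h2
  rw [← h2, card_filter, Nat.cast_sum]
  simp only [Nat.cast_ite, Nat.cast_one, Nat.cast_zero]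
  refine sum_congr rfl fun y hy => ?_
  have hne := mem_validPairs.1 hy rfl
  simp only [sym2Perm_pow, Sym2.eq_iff]
  by_cases h3 : (τ ^ n) y.1 = y.1 ∧ (τ ^ n) y.2 = y.2
  · have h4 : ¬ ((τ ^ n) y.1 = y.2 ∧ (τ ^ n) y.2 = y.1) := fun h4 => hne (h3.1.symm.trans h4.1)
    rw [if_pos (Or.inl h3), if_pos h3, if_neg h4, add_zero]
  · simp only [h3, false_or, if_false, zero_add]

open Classical in
theorem sum_inv_graphs (τ : Perm T) (x : K) :
    ∑ G ∈ univ.filter (GInv τ), x ^ ne G =
      pairTerm (Fintype.card T) (fun k => τ.partition.parts.count k)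
        (fun k => 1 + x ^ k) (fun k => 1 + x ^ k) fun _ => 1 := by
  obtain ⟨M, hM0, hM1, hM2⟩ := exists_orbit_sizes (sym2Perm τ) x (offDiag T) (inv_offDiag τ)
  have h1 : ∑ G ∈ univ.filter (GInv τ), x ^ ne G =
      ∑ A ∈ invs (sym2Perm τ) (offDiag T), x ^ A.card := by
    refine sum_nbij' (fun G => G.edgeSet.toFinset) (fun A => SimpleGraph.fromEdgeSet A)
      ?_ ?_ ?_ ?_ ?_
    · intro G hG
      refine mem_invs.2 ⟨fun z hz => ?_, fun z => ?_⟩
      · simpa [offDiag] using G.not_isDiag_of_mem_edgeSet (by simpa using hz)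
      · induction z using Sym2.ind with
        | _ a b => simpa [sym2Perm] using (mem_filter.1 hG).2 a b
    · intro A hA
      refine mem_filter.2 ⟨mem_univ _, fun u v => ?_⟩
      have := (mem_invs.1 hA).2 s(u, v)
      simp only [sym2Perm, coe_fn_mk, Sym2.map_mk] at this
      simp [this]
    · intro G _
      simp
    · intro A hA
      ext z
      have := (mem_invs.1 hA).1
      simp only [SimpleGraph.edgeSet_fromEdgeSet, Set.mem_toFinset, Set.mem_sdiff, mem_coe,
        and_iff_left_iff_imp]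
      intro hz
      simpa [offDiag] using this hz
    · intro G _
      rw [ne, Set.ncard_eq_toFinset_card']
  set M' : Multiset ℕ := pairSum (Fintype.card T) (fun k => τ.partition.parts.count k)
    (fun k => {k}) (fun k => {k}) fun _ => 0 with hM'
  have h2 := rel_pairTerm (M := K) (A := Multiset ℕ)
    (fun a B => 0 ∉ B ∧ a = (B.map fun L => 1 + x ^ L).prod) (by simp)
    (fun a a' B B' h h' => ⟨by simp [h.1, h'.1], by simp [h.2, h'.2]⟩)
    (Fintype.card T) (fun k => τ.partition.parts.count k)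
    (F := fun k => 1 + x ^ k) (G := fun k => 1 + x ^ k) (L := fun _ => 1)
    (F' := fun k => {k}) (G' := fun k => {k}) (L' := fun _ => 0)
    (fun k hk => ⟨by simp; omega, by simp⟩) (fun k hk => ⟨by simp; omega, by simp⟩)
    (fun k _ => by simp)
  rw [h1, hM2, h2.2, eq_of_dsum_eq hM0 h2.1 fun n _ => ?_]
  let φ : Multiset ℕ →+ ℚ :=
    Multiset.sumAddMonoidHom.comp (Multiset.mapAddMonoidHom (dv ℚ n))
  have hφ : ∀ B, φ B = dsum B n := by
    intro B
    simp only [φ, dsum, AddMonoidHom.comp_apply, Multiset.coe_mapAddMonoidHom,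
      Multiset.coe_sumAddMonoidHom, Nat.cast_multiset_sum, Multiset.map_map]
    congr 2
    funext k
    simp [dv]
  have h3 := map_pairSum φ (Fintype.card T) (fun k => τ.partition.parts.count k)
    (fun k => {k}) (fun k => {k}) fun _ => 0
  have h4 := two_mul_pairSum (R := ℚ) (ε := 1) (by simp) 0 n (Fintype.card T)
    fun k => τ.partition.parts.count k
  simp only [← fixc_cast, one_pow, mul_one, mul_zero, zero_mul, add_zero, one_mul] at h4
  have h5 := card_fix_offDiag τ n
  have h6 : ∀ k, φ {k} = dv ℚ n k := fun k => by simp [φ]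
  simp only [h6, map_zero] at h3
  rw [hM1, ← h4, ← h3, hφ] at h5
  exact_mod_cast mul_left_cancel₀ two_ne_zero h5

end Pairs

section Split

variable [Fintype T] [DecidableEq T] [Fintype S] [DecidableEq S]

open Classical in
noncomputable def nbOf (G : SimpleGraph (T ⊕ S)) (v : S) : Finset (T ⊕ S) :=
  univ.filter (G.Adj (inr v))

omit [DecidableEq T] [DecidableEq S] in
theorem mem_nbOf {G : SimpleGraph (T ⊕ S)} {v : S} {z : T ⊕ S} :
    z ∈ nbOf G v ↔ G.Adj (inr v) z := by
  simp [nbOf]

omit [DecidableEq T] [DecidableEq S] in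
theorem card_nbOf (G : SimpleGraph (T ⊕ S)) (v : S) : (nbOf G v).card = dg G (inr v) := by
  rw [dg_eq_sum, nbOf, card_filter]

omit [DecidableEq T] [DecidableEq S] in
theorem ne_split (G : SimpleGraph (T ⊕ S)) (h : ∀ v, dg G (inr v) = 2) :
    ne G = ne (G.comap inl) + Fintype.card S + td (nbOf G) / 2 := by
  classical
  have h1 := two_mul_ne G
  have h2 := two_mul_ne (G.comap (inl : T → T ⊕ S))
  have h3 : td (nbOf G) = ∑ a : T, ∑ v : S, if G.Adj (inl a) (inr v) then 1 else 0 := by
    rw [sum_comm]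
    refine sum_congr rfl fun v _ => ?_
    rw [tdv, nbOf, filter_filter, card_filter, Fintype.sum_sum_type]
    simp [G.adj_comm]
  rw [Fintype.sum_sum_type] at h1
  simp only [h, sum_const, card_univ, smul_eq_mul] at h1
  simp only [dg_eq_sum, Fintype.sum_sum_type, sum_add_distrib, SimpleGraph.comap_adj] at h1 h2
  rw [← h3, ← h2] at h1
  omega

def glue (G : SimpleGraph T) (nb : S → Finset (T ⊕ S)) (h : Pre nb) : SimpleGraph (T ⊕ S) where
  Adj
    | inl a, inl b => G.Adj a b
    | inl a, inr v => inl a ∈ nb v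
    | inr v, inl a => inl a ∈ nb v
    | inr u, inr v => inr v ∈ nb u
  symm := ⟨by
    rintro (a | u) (b | v) h'
    · exact G.adj_symm h'
    · exact h'
    · exact h'
    · exact h.symm _ _ h'⟩
  loopless := ⟨by
    rintro (a | u) h'
    · exact G.irrefl h'
    · exact h.irrefl _ h'⟩

omit [Fintype T] [Fintype S] in
theorem hom_iff_mem {τ : Perm T} {ρ : Perm S} {nb : S → Finset (T ⊕ S)} :
    Hom τ ρ nb nb ↔ ∀ v z, Sum.map τ ρ z ∈ nb (ρ v) ↔ z ∈ nb v := by
  have hinj : Injective (Sum.map τ ρ) := Sum.map_injective.2 ⟨τ.injective, ρ.injective⟩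
  constructor
  · intro h v z
    rw [h, hinj.mem_finset_image]
  · intro h v
    ext z
    obtain ⟨z, rfl⟩ := (Sum.map_surjective.2 ⟨τ.surjective, ρ.surjective⟩) z
    rw [h, hinj.mem_finset_image]

open Classical in
theorem sum_split (τ : Perm T) (ρ : Perm S) (x : K) :
    ∑ G ∈ univ.filter (fun G : SimpleGraph (T ⊕ S) =>
        GInv (Perm.sumCongr τ ρ) G ∧ ∀ v, dg G (inr v) = 2), x ^ ne G =
      (∑ G ∈ univ.filter (GInv τ), x ^ ne G) * x ^ Fintype.card S *
        ∑ nb ∈ univ.filter (fun nb : S → Finset (T ⊕ S) => Pre nb ∧ Hom τ ρ nb nb),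
          x ^ (td nb / 2) := by
  rw [sum_mul, sum_mul_sum, ← sum_product']
  refine sum_bij (fun G _ => (G.comap inl, nbOf G)) ?_ ?_ ?_ ?_
  · intro G hG
    obtain ⟨-, h1, h2⟩ := mem_filter.1 hG
    simp only [mem_product, mem_filter, mem_univ, true_and]
    refine ⟨fun a b => h1 (inl a) (inl b), ⟨fun v => by rw [card_nbOf, h2], fun u v h => ?_,
      fun v h => ?_⟩, hom_iff_mem.2 fun v z => ?_⟩
    · exact mem_nbOf.2 (mem_nbOf.1 h).symm
    · exact G.irrefl (mem_nbOf.1 h)
    · rw [mem_nbOf, mem_nbOf]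
      exact h1 (inr v) z
  · intro G _ G' _ h
    obtain ⟨h1, h2⟩ := Prod.mk.inj h
    have h3 : ∀ v z, G.Adj (inr v) z ↔ G'.Adj (inr v) z := fun v z => by
      rw [← mem_nbOf, ← mem_nbOf, h2]
    ext (a | u) z
    · rcases z with b | v
      · exact iff_of_eq (congrArg (fun H : SimpleGraph T => H.Adj a b) h1)
      · rw [G.adj_comm, G'.adj_comm, h3]
    · exact h3 u z
  · rintro ⟨G, nb⟩ h
    simp only [mem_product, mem_filter, mem_univ, true_and] at h
    obtain ⟨h1, h2, h3⟩ := h
    have h4 : nbOf (glue G nb h2) = nb := by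
      funext v
      ext (a | u) <;> exact mem_nbOf
    refine ⟨glue G nb h2, mem_filter.2 ⟨mem_univ _, ?_, fun v => ?_⟩, Prod.ext rfl h4⟩
    · rw [hom_iff_mem] at h3
      rintro (a | u) (b | v)
      · exact h1 a b
      · exact h3 v (inl a)
      · exact h3 u (inl b)
      · exact h3 u (inr v)
    · rw [← card_nbOf, h4, h2.card]
  · intro G hG
    rw [ne_split G (mem_filter.1 hG).2.2, pow_add, pow_add]

open Classical in
theorem sum_split_signed (τ : Perm T) (x : K) :
    ∑ ρ : Perm S, ((Perm.sign ρ : ℤ) : K) * ∑ G ∈ univ.filter (fun G : SimpleGraph (T ⊕ S) =>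
        GInv (Perm.sumCongr τ ρ) G ∧ ∀ v, dg G (inr v) = 2), x ^ ne G =
      (∑ G ∈ univ.filter (GInv τ), x ^ ne G) * x ^ Fintype.card S *
        Wn x τ (Fintype.card S) := by
  rw [← W_eq_Wn, W, St,
    sum_filter (s := (univ : Finset (Perm S × (S → Finset (T ⊕ S))))), Fintype.sum_prod_type,
    mul_sum]
  refine sum_congr rfl fun ρ _ => ?_
  rw [sum_split, mul_left_comm, mul_sum, sum_filter (s := (univ : Finset (S → Finset (T ⊕ S))))]
  rfl

end Split

end Pool.Agent.MP_5f0aae_co

end

section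

/-! Inclusion-exclusion over the points of degree two, and the closed form. -/

namespace Pool.Agent.MP_5f0aae_co

open Finset Equiv Function Sum PowerSeries

variable {V T : Type} {K : Type*} [Field K]

/-- The series that belongs to a cycle type. -/
noncomputable def typeSeries (x : K) (N t : ℕ) (M : Multiset ℕ) : K⟦X⟧ :=
  cycFig x N * pairTerm t (fun k => M.count k) (pairFig 1 x N) (pairFig (-1) x N) (loopFig x N)

open Classical in
theorem coeff_typeSeries [CharZero K] [Fintype T] [DecidableEq T] (x : K) (τ : Perm T) {N s : ℕ}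
    (hs : s ≤ N) : coeff s (typeSeries x N (Fintype.card T) τ.partition.parts) =
      (∑ G ∈ univ.filter (GInv τ), x ^ ne G) * aCoef x τ s := by
  have h1 := pairTerm_mul (Fintype.card T) (fun k => τ.partition.parts.count k)
    (fun k => C (1 + x ^ k)) (fun k => C (1 + x ^ k)) (fun _ => C 1)
    (pathFig 1 x N) (pathFig (-1) x N) (loopFig x N)
  have h2 := map_pairTerm (C (R := K)).toMonoidHom (Fintype.card T)
    (fun k => τ.partition.parts.count k) (fun k => 1 + x ^ k) (fun k => 1 + x ^ k) fun _ => 1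
  simp only [RingHom.toMonoidHom_eq_coe, MonoidHom.coe_coe] at h2
  have h3 : ∀ e : K, pairFig e x N = fun k => C (1 + x ^ k) * pathFig e x N k := fun e => by
    funext k
    simp [pairFig, pathFig]
  have h4 : loopFig x N = fun k => C 1 * loopFig x N k := by simp
  rw [typeSeries, h3, h3, h4, h1, ← h2, mul_left_comm, coeff_C_mul, coeff_Spart x τ hs,
    sum_inv_graphs]

open Classical in
theorem sum_over_subset [CharZero K] [Fintype V] [DecidableEq V] (x : K) (A : Finset V) {N p : ℕ}
    (hA : A.card ≤ N) (hp : Fintype.card V = p) :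
    ∑ σ : Perm V, sgnOn K σ A * ∑ G ∈ univ.filter (fun G : SimpleGraph V =>
        GInv σ G ∧ ∀ v ∈ A, dg G v = 2), x ^ ne G =
      (A.card.factorial : K) * (p - A.card).factorial *
        ∑ lam : Nat.Partition (p - A.card),
          ((zee (p - A.card) fun k => lam.parts.count k : ℕ) : K)⁻¹ *
            coeff A.card (typeSeries x N (p - A.card) lam.parts) := by
  subst hp
  let S := {v // v ∈ A}
  let T := {v // v ∉ A}
  have hS : Fintype.card S = A.card := Fintype.card_coe A
  have hT : Fintype.card T = Fintype.card V - A.card := by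
    rw [← hS]
    exact Fintype.card_subtype_compl _
  let ε : T ⊕ S ≃ V := (Equiv.sumComm T S).trans (Equiv.sumCompl fun v => v ∈ A)
  have hε : ∀ (τ : Perm T) (ρ : Perm S) (z : T ⊕ S),
      ρ.subtypeCongr τ (ε z) = ε (Perm.sumCongr τ ρ z) := by
    rintro τ ρ (a | v)
    · exact Perm.subtypeCongr.right_apply_subtype ρ τ a
    · exact Perm.subtypeCongr.left_apply_subtype ρ τ v
  have hinv : ∀ (τ : Perm T) (ρ : Perm S), Inv (ρ.subtypeCongr τ) A := by
    intro τ ρ v
    by_cases hv : v ∈ A
    · rw [Perm.subtypeCongr.left_apply _ _ hv]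
      exact iff_of_true (ρ ⟨v, hv⟩).2 hv
    · rw [Perm.subtypeCongr.right_apply _ _ hv]
      exact iff_of_false (τ ⟨v, hv⟩).2 hv
  have h1 : ∀ F : Perm V → K, ∑ σ : Perm V, sgnOn K σ A * F σ =
      ∑ τ : Perm T, ∑ ρ : Perm S,
        (-1) ^ A.card * (((Perm.sign ρ : ℤ) : K) * F (ρ.subtypeCongr τ)) := by
    intro F
    rw [← sum_filter_of_ne (p := fun σ => Inv σ A), ← Fintype.sum_prod_type']
    · symm
      refine sum_bij (fun y _ => y.2.subtypeCongr y.1) ?_ ?_ ?_ ?_
      · exact fun y _ => mem_filter.2 ⟨mem_univ _, hinv y.1 y.2⟩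
      · intro y _ y' _ h
        have := Perm.subtypeCongrHom_injective (fun v => v ∈ A) (a₁ := (y.2, y.1))
          (a₂ := (y'.2, y'.1)) h
        exact Prod.ext (Prod.mk.inj this).2 (Prod.mk.inj this).1
      · intro σ hσ
        have h := (mem_filter.1 hσ).2
        refine ⟨(σ.subtypePerm fun v => (h v).not, σ.subtypePerm h), mem_univ _, ?_⟩
        ext v
        by_cases hv : v ∈ A
        · rw [Perm.subtypeCongr.left_apply _ _ hv]
          rfl
        · rw [Perm.subtypeCongr.right_apply _ _ hv]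
          rfl
      · intro y _
        have : (y.2.subtypeCongr y.1).subtypePerm (hinv y.1 y.2) = y.2 := by
          ext v
          exact Perm.subtypeCongr.left_apply_subtype y.2 y.1 v
        rw [sgnOn, dif_pos (hinv y.1 y.2), this, mul_assoc]
    · intro σ _ h
      by_contra h'
      exact h (by rw [sgnOn, dif_neg h', zero_mul])
  have h2 : ∀ (τ : Perm T) (ρ : Perm S), ∑ G ∈ univ.filter (fun G : SimpleGraph V =>
        GInv (ρ.subtypeCongr τ) G ∧ ∀ v ∈ A, dg G v = 2), x ^ ne G =
      ∑ G ∈ univ.filter (fun G : SimpleGraph (T ⊕ S) =>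
        GInv (Perm.sumCongr τ ρ) G ∧ ∀ v, dg G (inr v) = 2), x ^ ne G := by
    intro τ ρ
    refine sum_nbij' (fun G => G.comap ε) (fun G => G.comap ε.symm) ?_ ?_ ?_ ?_ ?_
    · intro G hG
      obtain ⟨-, h1, h2⟩ := mem_filter.1 hG
      refine mem_filter.2 ⟨mem_univ _, fun u v => ?_, fun v => ?_⟩
      · simp only [SimpleGraph.comap_adj, ← hε]
        exact h1 _ _
      · rw [dg_comap]
        exact h2 _ v.2
    · intro G hG
      obtain ⟨-, h1, h2⟩ := mem_filter.1 hG
      refine mem_filter.2 ⟨mem_univ _, fun u v => ?_, fun v hv => ?_⟩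
      · obtain ⟨u, rfl⟩ := ε.surjective u
        obtain ⟨v, rfl⟩ := ε.surjective v
        simp only [SimpleGraph.comap_adj, hε, symm_apply_apply]
        exact h1 _ _
      · rw [dg_comap, ← h2 ⟨v, hv⟩]
        congr 1
        exact ε.symm_apply_eq.2 rfl
    · intro G _
      ext u v
      simp
    · intro G _
      ext u v
      simp
    · intro G _
      rw [ne_comap]
  rw [h1, mul_assoc, ← sum_perm_partition hT
    fun M => coeff A.card (typeSeries x N (Fintype.card V - A.card) M), mul_sum]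
  refine sum_congr rfl fun τ _ => ?_
  simp only [h2]
  rw [← mul_sum, sum_split_signed, ← hT, coeff_typeSeries x τ hA, aCoef, hS, neg_pow x]
  have : (A.card.factorial : K) ≠ 0 := Nat.cast_ne_zero.2 (Nat.factorial_ne_zero _)
  field_simp

open Classical in
theorem incl_excl [Fintype V] [DecidableEq V] (x : K) (σ : Perm V) :
    ∑ G ∈ univ.filter (fun G : SimpleGraph V => GInv σ G ∧ ∀ v, dg G v ≠ 2), x ^ ne G =
      ∑ A : Finset V, sgnOn K σ A * ∑ G ∈ univ.filter (fun G : SimpleGraph V =>
        GInv σ G ∧ ∀ v ∈ A, dg G v = 2), x ^ ne G := by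
  simp only [sum_filter, mul_sum]
  rw [sum_comm]
  refine sum_congr rfl fun G _ => ?_
  by_cases hG : GInv σ G
  · have hD : Inv σ (univ.filter fun v => dg G v = 2) := fun v => by simp [hG.dg]
    have h1 := sum_sgnOn (K := K) hD
    have h2 : ∑ A ∈ invs σ (univ.filter fun v => dg G v = 2), sgnOn K σ A =
        ∑ A : Finset V, if ∀ v ∈ A, dg G v = 2 then sgnOn K σ A else 0 := by
      rw [← sum_filter]
      refine sum_subset (fun A hA => ?_) fun A hA hA' => ?_
      · exact mem_filter.2 ⟨mem_univ _, fun v hv => (mem_filter.1 ((mem_invs.1 hA).1 hv)).2⟩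
      · rw [sgnOn, dif_neg fun h => hA' (mem_invs.2 ⟨fun v hv => ?_, h⟩)]
        exact mem_filter.2 ⟨mem_univ _, (mem_filter.1 hA).2 v hv⟩
    simp only [hG, true_and, mul_ite, mul_zero]
    rw [h2] at h1
    have h3 := congrArg (· * x ^ ne G) h1
    simp only [sum_mul, ite_mul, zero_mul, one_mul] at h3
    rw [h3]
    refine if_congr ?_ rfl rfl
    simp [filter_eq_empty_iff]
  · simp [hG]

theorem closed_form [CharZero K] (x : K) (N p : ℕ) (hp : p ≤ N) :
    ∑ q ∈ range (p.choose 2 + 1), (hcount p q : K) * x ^ q =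
      coeff p (cycFig x N * ∑ t ∈ range (N + 1), X ^ t * ∑ lam : Nat.Partition t,
        C ((zee t fun k => lam.parts.count k : ℕ) : K)⁻¹ *
          pairTerm t (fun k => lam.parts.count k)
            (pairFig 1 x N) (pairFig (-1) x N) (loopFig x N)) := by
  classical
  have hp0 : (p.factorial : K) ≠ 0 := Nat.cast_ne_zero.2 (Nat.factorial_ne_zero _)
  apply mul_left_cancel₀ hp0
  let Ψ : ℕ → ℕ → K := fun t s => ∑ lam : Nat.Partition t,
    ((zee t fun k => lam.parts.count k : ℕ) : K)⁻¹ * coeff s (typeSeries x N t lam.parts)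
  have hR : coeff p (cycFig x N * ∑ t ∈ range (N + 1), X ^ t * ∑ lam : Nat.Partition t,
        C ((zee t fun k => lam.parts.count k : ℕ) : K)⁻¹ *
          pairTerm t (fun k => lam.parts.count k)
            (pairFig 1 x N) (pairFig (-1) x N) (loopFig x N)) =
      ∑ s ∈ range (p + 1), Ψ (p - s) s := by
    rw [mul_sum, map_sum, ← sum_subset (range_subset_range.2 (show p + 1 ≤ N + 1 by omega)),
      ← sum_range_reflect]
    · refine sum_congr rfl fun s hs => ?_
      rw [mem_range] at hs
      rw [mul_left_comm, coeff_X_pow_mul', if_pos (by omega), mul_sum, map_sum,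
        show p - (p + 1 - 1 - s) = s by omega]
      refine sum_congr rfl fun lam _ => ?_
      rw [mul_left_comm, coeff_C_mul]
      rfl
    · intro t _ ht
      rw [mem_range] at ht
      rw [mul_left_comm, coeff_X_pow_mul', if_neg (by omega)]
  rw [hR, burnside_weighted, sum_congr rfl fun σ _ => by convert incl_excl x σ, sum_comm]
  have h1 : ∀ A : Finset (Fin p), A.card ≤ N := fun A =>
    (A.card_le_univ.trans (by simp)).trans hp
  simp only [fun A => sum_over_subset x A (h1 A) (Fintype.card_fin p)]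
  rw [← powerset_univ]
  refine (sum_powerset_apply_card (x := (univ : Finset (Fin p)))
    (fun s => (s.factorial : K) * (p - s).factorial * Ψ (p - s) s)).trans ?_
  rw [mul_sum, card_univ, Fintype.card_fin]
  refine sum_congr rfl fun s hs => ?_
  rw [← Nat.choose_mul_factorial_mul_factorial (show s ≤ p by simpa [Nat.lt_succ_iff] using hs),
    nsmul_eq_mul]
  push_cast
  ring

end Pool.Agent.MP_5f0aae_co

end
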